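import Mathlib

open Set Polynomial

namespace Pool.Agent.Lib.MP_2d1a26_lc

/-- `u` satisfies a nonzero polynomial equation on `s`. -/
def AlgOn (s : Set ℝ) (u : ℝ → ℝ) : Prop :=
  ∃ Q : ℝ[X][X], Q ≠ 0 ∧ ∀ x ∈ s, Q.evalEval x (u x) = 0

/-- Polynomials as functions on `s`. -/
noncomputable def polyFun (s : Set ℝ) : ℝ[X] →+* (s → ℝ) where
  toFun p := fun x => p.eval x.1
  map_one' := by funext x; simp
  map_zero' := by funext x; simp
  map_add' p q := by funext x; simp
  map_mul' p q := by funext x; simp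

lemma eval₂_polyFun (s : Set ℝ) (u : s → ℝ) (Q : ℝ[X][X]) (x : s) :
    (Q.eval₂ (polyFun s) u) x = Q.evalEval x.1 (u x) := by
  have h1 : (Pi.evalRingHom (fun _ : s => ℝ) x) (Q.eval₂ (polyFun s) u) =
      Q.eval₂ ((Pi.evalRingHom (fun _ : s => ℝ) x).comp (polyFun s))
        ((Pi.evalRingHom (fun _ : s => ℝ) x) u) := Polynomial.hom_eval₂ _ _ _ _
  have h2 : (Pi.evalRingHom (fun _ : s => ℝ) x).comp (polyFun s) = evalRingHom x.1 := by
    apply RingHom.ext
    intro p
    rfl
  rw [h2, eval₂_evalRingHom] at h1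
  exact h1

lemma algOn_iff (s : Set ℝ) (u : ℝ → ℝ) :
    AlgOn s u ↔ ∃ Q : ℝ[X][X], Q ≠ 0 ∧ Q.eval₂ (polyFun s) (fun x : s => u x.1) = 0 := by
  constructor
  · rintro ⟨Q, hQ, h⟩
    refine ⟨Q, hQ, ?_⟩
    funext x
    rw [eval₂_polyFun]
    exact h x.1 x.2
  · rintro ⟨Q, hQ, h⟩
    refine ⟨Q, hQ, ?_⟩
    intro x hx
    have := congrFun h ⟨x, hx⟩
    rw [eval₂_polyFun] at this
    exact this

lemma AlgOn.mono {s t : Set ℝ} {u : ℝ → ℝ} (h : AlgOn t u) (hst : s ⊆ t) : AlgOn s u := by
  obtain ⟨Q, hQ, h⟩ := h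
  exact ⟨Q, hQ, fun x hx => h x (hst hx)⟩

lemma AlgOn.union {s t : Set ℝ} {u : ℝ → ℝ} (h : AlgOn s u) (h' : AlgOn t u) :
    AlgOn (s ∪ t) u := by
  obtain ⟨Q, hQ, h⟩ := h
  obtain ⟨Q', hQ', h'⟩ := h'
  refine ⟨Q * Q', mul_ne_zero hQ hQ', ?_⟩
  intro x hx
  rw [evalEval_mul]
  rcases hx with hx | hx
  · rw [h x hx, zero_mul]
  · rw [h' x hx, mul_zero]

lemma AlgOn.biUnion {ι : Type*} (I : Finset ι) (s : ι → Set ℝ) {u : ℝ → ℝ}
    (h : ∀ i ∈ I, AlgOn (s i) u) : AlgOn (⋃ i ∈ I, s i) u := by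
  classical
  induction I using Finset.induction_on with
  | empty => exact ⟨1, one_ne_zero, by simp⟩
  | insert a I ha ih =>
    rw [Finset.set_biUnion_insert]
    exact (h a (Finset.mem_insert_self _ _)).union
      (ih (fun i hi => h i (Finset.mem_insert_of_mem hi)))

/-- Closure of algebraic functions under polynomial expressions in finitely many of them. -/
lemma AlgOn.sub {s : Set ℝ} {u v : ℝ → ℝ} (hu : AlgOn s u) (hv : AlgOn s v) :
    AlgOn s (fun x => u x - v x) := by
  let := (polyFun s).toAlgebra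
  have hu' : IsAlgebraic ℝ[X] (fun x : s => u x.1) := (algOn_iff s u).mp hu
  have hv' : IsAlgebraic ℝ[X] (fun x : s => v x.1) := (algOn_iff s v).mp hv
  exact (algOn_iff s _).mpr (hu'.sub hv')

lemma AlgOn.poly {s : Set ℝ} (p : ℝ[X]) : AlgOn s (fun x => p.eval x) := by
  refine ⟨X - C p, X_sub_C_ne_zero _, ?_⟩
  intro x _
  rw [evalEval_sub, evalEval_X, evalEval_C, sub_self]

lemma AlgOn.evalEval {s : Set ℝ} {v : ℝ → ℝ} (hv : AlgOn s v) (V : ℝ[X][X]) :
    AlgOn s (fun x => V.evalEval x (v x)) := by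
  let := (polyFun s).toAlgebra
  have hv' : IsAlgebraic ℝ[X] (fun x : s => v x.1) := (algOn_iff s v).mp hv
  have h1 : aeval (fun x : s => v x.1) V ∈ Subalgebra.algebraicClosure ℝ[X] (s → ℝ) := by
    have hmem : (fun x : s => v x.1) ∈ Subalgebra.algebraicClosure ℝ[X] (s → ℝ) := hv'
    have h3 : Algebra.adjoin ℝ[X] {(fun x : s => v x.1)} ≤
        Subalgebra.algebraicClosure ℝ[X] (s → ℝ) := Algebra.adjoin_le (by
      intro w hw
      rw [Set.mem_singleton_iff.mp hw]
      exact hmem)
    exact h3 (Polynomial.aeval_mem_adjoin_singleton _ _)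
  have h2 : IsAlgebraic ℝ[X] (aeval (fun x : s => v x.1) V) := h1
  apply (algOn_iff s _).mpr
  obtain ⟨Q, hQ, hQ0⟩ := h2
  refine ⟨Q, hQ, ?_⟩
  have h3 : aeval (fun x : s => v x.1) V = (fun x : s => V.evalEval x.1 (v x.1)) := by
    funext x
    exact eval₂_polyFun s _ V x
  rw [h3] at hQ0
  exact hQ0

lemma comp_injective (q : ℝ[X]) (r : ℝ[X]) (h : q.comp r = X) :
    Function.Injective (fun p : ℝ[X] => p.comp q) := by
  intro p p' hp
  have h1 : (p.comp q).comp r = (p'.comp q).comp r := by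
    have : p.comp q = p'.comp q := hp
    rw [this]
  rwa [comp_assoc, comp_assoc, h, comp_X, comp_X] at h1

/-- Change of variables in the argument. -/
lemma AlgOn.comp {s : Set ℝ} {u : ℝ → ℝ} (hu : AlgOn s u) (q r : ℝ[X]) (hqr : q.comp r = X) :
    AlgOn {x | q.eval x ∈ s} (fun x => u (q.eval x)) := by
  obtain ⟨Q, hQ, h⟩ := hu
  refine ⟨Q.map (compRingHom q), ?_, ?_⟩
  · intro h0
    apply hQ
    apply Polynomial.map_injective (compRingHom q) (comp_injective q r hqr)
    rw [h0, Polynomial.map_zero]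
  · intro x hx
    have h1 := h (q.eval x) hx
    rw [← eval₂_evalRingHom] at h1 ⊢
    rw [eval₂_map]
    have h2 : (evalRingHom x).comp (compRingHom q) = evalRingHom (q.eval x) := by
      apply RingHom.ext
      intro p
      simp [eval_comp]
    rw [h2]
    exact h1

/-- A point where a smooth function is locally zero on the left. -/
def ZeroLeft (x0 : ℝ) (u : ℝ → ℝ) : Prop :=
  ContDiff ℝ (⊤ : ℕ∞) u ∧ ∃ δ > 0, ∀ x ∈ Ioo (x0 - δ) x0, u x = 0

lemma ZeroLeft.deriv {x0 : ℝ} {u : ℝ → ℝ} (h : ZeroLeft x0 u) : ZeroLeft x0 (deriv u) := by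
  obtain ⟨h1, δ, hδ, h2⟩ := h
  refine ⟨?_, δ, hδ, ?_⟩
  · exact (contDiff_infty_iff_deriv.mp h1).2
  · intro x hx
    have : u =ᶠ[nhds x] fun _ => 0 := by
      filter_upwards [isOpen_Ioo.mem_nhds hx] with y hy
      exact h2 y hy
    rw [this.deriv_eq, deriv_const]

lemma ZeroLeft.value {x0 : ℝ} {u : ℝ → ℝ} (h : ZeroLeft x0 u) : u x0 = 0 := by
  obtain ⟨h1, δ, hδ, h2⟩ := h
  have hcont : Filter.Tendsto u (nhdsWithin x0 (Iio x0)) (nhds (u x0)) :=
    h1.continuous.continuousAt.tendsto.mono_left nhdsWithin_le_nhds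
  have hzero : Filter.Tendsto u (nhdsWithin x0 (Iio x0)) (nhds 0) := by
    apply tendsto_const_nhds.congr'
    have : Ioo (x0 - δ) x0 ∈ nhdsWithin x0 (Iio x0) := Ioo_mem_nhdsLT (by linarith)
    filter_upwards [this] with x hx
    exact (h2 x hx).symm
  exact tendsto_nhds_unique hcont hzero

/-- Flatness: a smooth function vanishing to the left of `x0` is small to every order. -/
lemma ZeroLeft.flat {x0 : ℝ} (M : ℕ) : ∀ {u : ℝ → ℝ}, ZeroLeft x0 u →
    ∃ C : ℝ, 0 ≤ C ∧ ∀ x ∈ Icc x0 (x0 + 1), |u x| ≤ C * (x - x0) ^ M := by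
  induction M with
  | zero =>
    intro u h
    obtain ⟨C, hC⟩ := isCompact_Icc.exists_bound_of_continuousOn
      (s := Icc x0 (x0 + 1)) h.1.continuous.continuousOn
    refine ⟨max C 0, le_max_right _ _, ?_⟩
    intro x hx
    rw [pow_zero, mul_one]
    exact (hC x hx).trans (le_max_left _ _)
  | succ M ih =>
    intro u h
    obtain ⟨C, hC0, hC⟩ := ih h.deriv
    refine ⟨C, hC0, ?_⟩
    intro x hx
    have h0 := h.value
    have hdiff : Differentiable ℝ u := h.1.differentiable (by simp)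
    have hbound : ∀ y ∈ Icc x0 x, ‖_root_.deriv u y‖ ≤ C * (x - x0) ^ M := by
      intro y hy
      have h1 := hC y ⟨hy.1, hy.2.trans hx.2⟩
      refine h1.trans ?_
      apply mul_le_mul_of_nonneg_left _ hC0
      exact pow_le_pow_left₀ (by linarith [hy.1]) (by linarith [hy.2]) M
    have h2 := (convex_Icc x0 x).norm_image_sub_le_of_norm_deriv_le
      (fun y _ => hdiff y) hbound (left_mem_Icc.mpr hx.1) (right_mem_Icc.mpr hx.1)
    have hx0 : 0 ≤ x - x0 := by linarith [hx.1]
    rw [h0, sub_zero, Real.norm_eq_abs, Real.norm_eq_abs, abs_of_nonneg hx0] at h2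
    rw [pow_succ, ← mul_assoc]
    exact h2

/-- A smooth function that vanishes to the left of `x0` and is algebraic to the right of `x0`
vanishes near `x0`. -/
lemma ZeroLeft.eventually_zero {x0 : ℝ} {u : ℝ → ℝ} (h : ZeroLeft x0 u)
    (hu : AlgOn (Icc x0 (x0 + 1)) u) : ∃ ε > 0, ∀ x ∈ Icc x0 (x0 + ε), u x = 0 := by
  obtain ⟨Q, hQ, hQ0⟩ := hu
  -- strip powers of the variable
  have key : ∀ n : ℕ, ∀ Q : ℝ[X][X], Q.natDegree = n → Q ≠ 0 →
      (∀ x ∈ Icc x0 (x0 + 1), u x ≠ 0 → Q.evalEval x (u x) = 0) →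
      ∃ Q1 : ℝ[X][X], Q1.coeff 0 ≠ 0 ∧
        (∀ x ∈ Icc x0 (x0 + 1), u x ≠ 0 → Q1.evalEval x (u x) = 0) := by
    intro n
    induction n using Nat.strong_induction_on with
    | _ n ih =>
      intro Q hn hQ hQ0
      by_cases hc : Q.coeff 0 = 0
      · have h1 : divX Q * X = Q := by
          have := Polynomial.divX_mul_X_add Q
          rwa [hc, C_0, add_zero] at this
        have hne : divX Q ≠ 0 := by
          intro h0; rw [h0, zero_mul] at h1; exact hQ h1.symm
        have hdeg : (divX Q).natDegree < n := by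
          rw [← hn]
          conv_rhs => rw [← h1]
          rw [natDegree_mul_X hne]
          omega
        apply ih _ hdeg (divX Q) rfl hne
        intro x hx hux
        have h2 := hQ0 x hx hux
        rw [← h1, evalEval_mul, evalEval_X] at h2
        rcases mul_eq_zero.mp h2 with h3 | h3
        · exact h3
        · exact absurd h3 hux
      · exact ⟨Q, hc, hQ0⟩
  obtain ⟨Q1, hc, hQ1⟩ := key _ Q rfl hQ (fun x hx _ => hQ0 x hx)
  have hsplit : ∀ x, Q1.evalEval x (u x) =
      (divX Q1).evalEval x (u x) * u x + (Q1.coeff 0).eval x := by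
    intro x
    conv_lhs => rw [← Polynomial.divX_mul_X_add Q1]
    rw [evalEval_add, evalEval_mul, evalEval_X, evalEval_C]
  have hcont : Continuous (fun x => (divX Q1).evalEval x (u x)) := by
    have hu : Continuous u := h.1.continuous
    have : (fun x => (divX Q1).evalEval x (u x)) = fun x =>
        ∑ i ∈ Finset.range ((divX Q1).natDegree + 1), ((divX Q1).coeff i).eval x * (u x) ^ i := by
      funext x
      rw [evalEval, eval_eq_sum_range (p := divX Q1), eval_finsetSum]
      apply Finset.sum_congr rfl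
      intro i _
      rw [eval_mul, eval_pow, eval_C]
    rw [this]
    apply continuous_finsetSum
    intro i _
    exact ((divX Q1).coeff i).continuous.mul (hu.pow i)
  obtain ⟨B, hB⟩ := isCompact_Icc.exists_bound_of_continuousOn
      (s := Icc x0 (x0 + 1)) hcont.continuousOn
  -- factor the constant coefficient
  obtain ⟨r, hr, hrd⟩ := Polynomial.exists_eq_pow_rootMultiplicity_mul_and_not_dvd
    (Q1.coeff 0) hc x0
  set N := rootMultiplicity x0 (Q1.coeff 0) with hN
  have hr0 : r.eval x0 ≠ 0 := by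
    intro h0
    exact hrd (dvd_iff_isRoot.mpr h0)
  obtain ⟨C, hC0, hC⟩ := h.flat (N + 1)
  have hbound : ∀ x ∈ Ioc x0 (x0 + 1), u x ≠ 0 → |r.eval x| ≤ |B| * C * (x - x0) := by
    intro x hx hux
    have hx' : x ∈ Icc x0 (x0 + 1) := ⟨hx.1.le, hx.2⟩
    have h1 := hQ1 x hx' hux
    rw [hsplit x] at h1
    have h2 : (Q1.coeff 0).eval x = -((divX Q1).evalEval x (u x) * u x) := by linarith
    have h3 : (Q1.coeff 0).eval x = (x - x0) ^ N * r.eval x := by
      conv_lhs => rw [hr]
      rw [eval_mul, eval_pow, eval_sub, eval_X, eval_C]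
    have h4 : |(x - x0) ^ N * r.eval x| ≤ |B| * (C * (x - x0) ^ (N + 1)) := by
      rw [← h3, h2, abs_neg, abs_mul]
      apply mul_le_mul _ (hC x hx') (abs_nonneg _) (abs_nonneg _)
      exact (hB x hx').trans (le_abs_self B)
    have hpos : 0 < x - x0 := by linarith [hx.1]
    rw [abs_mul, abs_of_pos (pow_pos hpos N)] at h4
    have h5 : (x - x0) ^ N * |r.eval x| ≤ (x - x0) ^ N * (|B| * C * (x - x0)) := by
      calc (x - x0) ^ N * |r.eval x| ≤ |B| * (C * (x - x0) ^ (N + 1)) := h4
        _ = (x - x0) ^ N * (|B| * C * (x - x0)) := by ring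
    exact le_of_mul_le_mul_left h5 (pow_pos hpos N)
  -- near `x0` the bound fails
  have hlim1 : Filter.Tendsto (fun x => |r.eval x|) (nhds x0) (nhds |r.eval x0|) :=
    (r.continuous.abs).continuousAt
  have hlim2 : Filter.Tendsto (fun x => |B| * C * (x - x0)) (nhds x0) (nhds 0) := by
    have : Filter.Tendsto (fun x => |B| * C * (x - x0)) (nhds x0)
        (nhds (|B| * C * (x0 - x0))) := by
      apply Continuous.continuousAt
      fun_prop
    rwa [sub_self, mul_zero] at this
  have hev : ∀ᶠ x in nhds x0, |B| * C * (x - x0) < |r.eval x| :=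
    hlim2.eventually_lt hlim1 (abs_pos.mpr hr0)
  obtain ⟨ε, hε, hball⟩ := Metric.eventually_nhds_iff.mp hev
  refine ⟨min (ε / 2) 1, by positivity, ?_⟩
  intro x hx
  rcases eq_or_lt_of_le hx.1 with h1 | h1
  · rw [← h1]; exact h.value
  · by_contra hux
    have h2 : x ≤ x0 + 1 := hx.2.trans (by gcongr; exact min_le_right _ _)
    have h3 := hbound x ⟨h1, h2⟩ hux
    have h4 : dist x x0 < ε := by
      rw [Real.dist_eq, abs_of_pos (by linarith)]
      have : x ≤ x0 + ε / 2 := hx.2.trans (by gcongr; exact min_le_left _ _)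
      linarith
    exact absurd h3 (not_le.mpr (hball h4))

/-- `u` is algebraic on every bounded interval. -/
def LocAlg (u : ℝ → ℝ) : Prop := ∀ a b : ℝ, AlgOn (Icc a b) u

lemma LocAlg.comp_neg {u : ℝ → ℝ} (h : LocAlg u) : LocAlg (fun x => u (-x)) := by
  intro a b
  have h1 := (h (-b) (-a)).comp (-X) (-X) (by simp)
  simp only [eval_neg, eval_X] at h1
  apply h1.mono
  intro x hx
  exact ⟨by linarith [hx.2], by linarith [hx.1]⟩

lemma LocAlg.comp_add {u : ℝ → ℝ} (h : LocAlg u) (c : ℝ) : LocAlg (fun x => u (x + c)) := by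
  intro a b
  have h1 := (h (a + c) (b + c)).comp (X + C c) (X - C c) (by simp)
  simp only [eval_add, eval_X, eval_C] at h1
  apply h1.mono
  intro x hx
  exact ⟨by linarith [hx.1], by linarith [hx.2]⟩

/-- Unique continuation to the right. -/
lemma zero_right {u : ℝ → ℝ} (hs : ContDiff ℝ (⊤ : ℕ∞) u) (hu : LocAlg u) {a b : ℝ} (hab : a < b)
    (h0 : ∀ x ∈ Icc a b, u x = 0) : ∀ x, a ≤ x → u x = 0 := by
  by_contra hne
  push Not at hne
  obtain ⟨y, hay, huy⟩ := hne
  let T : Set ℝ := {x | a ≤ x ∧ u x ≠ 0}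
  have hT : T.Nonempty := ⟨y, hay, huy⟩
  have hTb : ∀ x ∈ T, b ≤ x := by
    intro x hx
    by_contra hlt
    exact hx.2 (h0 x ⟨hx.1, (not_le.mp hlt).le⟩)
  have hTbdd : BddBelow T := ⟨b, hTb⟩
  set x0 := sInf T with hx0
  have hbx0 : b ≤ x0 := le_csInf hT hTb
  have hzero : ∀ x, a ≤ x → x < x0 → u x = 0 := by
    intro x hax hx
    by_contra hux
    exact absurd (csInf_le hTbdd ⟨hax, hux⟩) (not_le.mpr hx)
  have hZ : ZeroLeft x0 u := ⟨hs, x0 - a, by linarith, fun x hx => hzero x (by linarith [hx.1]) hx.2⟩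
  obtain ⟨ε, hε, hz⟩ := hZ.eventually_zero (hu _ _)
  have hlb : x0 + ε ≤ sInf T := by
    apply le_csInf hT
    intro x hx
    by_contra hlt
    push Not at hlt
    rcases lt_or_ge x x0 with h1 | h1
    · exact hx.2 (hzero x hx.1 h1)
    · exact hx.2 (hz x ⟨h1, hlt.le⟩)
  linarith

/-- Unique continuation for smooth locally algebraic functions. -/
lemma zero_everywhere {u : ℝ → ℝ} (hs : ContDiff ℝ (⊤ : ℕ∞) u) (hu : LocAlg u) {a b : ℝ}
    (hab : a < b) (h0 : ∀ x ∈ Icc a b, u x = 0) (x : ℝ) : u x = 0 := by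
  rcases le_total a x with h | h
  · exact zero_right hs hu hab h0 x h
  · have h1 := zero_right (u := fun x => u (-x)) (hs.comp contDiff_neg) hu.comp_neg
      (a := -b) (b := -a) (by linarith) (by
        intro y hy
        exact h0 (-y) ⟨by linarith [hy.2], by linarith [hy.1]⟩) (-x) (by linarith)
    simpa using h1

/-- A smooth periodic locally algebraic function is constant. -/
lemma constant_of_periodic {v : ℝ → ℝ} (hs : ContDiff ℝ (⊤ : ℕ∞) v) (hv : LocAlg v) {N : ℝ}
    (hN : 0 < N) (hper : ∀ x, v (x + N) = v x) : ∀ x y, v x = v y := by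
  obtain ⟨V, hV, hV0⟩ := hv 0 1
  have hw : ∀ x, V.evalEval x (v x) = 0 := by
    apply zero_everywhere (u := fun x => V.evalEval x (v x)) _ _ (show (0 : ℝ) < 1 by norm_num)
    · intro x hx
      exact hV0 x hx
    · have : (fun x => V.evalEval x (v x)) = fun x =>
          ∑ i ∈ Finset.range (V.natDegree + 1), (V.coeff i).eval x * (v x) ^ i := by
        funext x
        rw [evalEval, eval_eq_sum_range (p := V), eval_finsetSum]
        apply Finset.sum_congr rfl
        intro i _
        rw [eval_mul, eval_pow, eval_C]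
      rw [this]
      apply ContDiff.sum
      intro i _
      apply ContDiff.mul
      · have := (V.coeff i).contDiff_aeval (𝕜 := ℝ) (⊤ : ℕ∞)
        simpa using this
      · exact hs.pow i
    · intro a b
      exact (hv a b).evalEval V
  have hper' : ∀ (n : ℕ) x, v (x + n * N) = v x := by
    intro n
    induction n with
    | zero => intro x; simp
    | succ n ih =>
      intro x
      have : x + ((n + 1 : ℕ) : ℝ) * N = (x + n * N) + N := by push_cast; ring
      rw [this, hper, ih]
  -- the swapped polynomial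
  set W : ℝ[X][X] := Bivariate.swap V with hW
  have hWne : W ≠ 0 := by
    intro h0
    apply hV
    have := congrArg Bivariate.swap h0
    rw [hW, Bivariate.swap_swap_apply, map_zero] at this
    exact this
  have hWV : ∀ x y : ℝ, W.evalEval y x = V.evalEval x y := by
    intro x y
    have := Bivariate.aevalAeval_swap (R := ℝ) (A := ℝ) y x V
    rw [coe_aevalAeval_eq_evalEval, coe_aevalAeval_eq_evalEval] at this
    rw [hW]
    exact this
  obtain ⟨i, hi⟩ : ∃ i, W.coeff i ≠ 0 := by
    by_contra hno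
    push Not at hno
    exact hWne (Polynomial.ext (by simpa using hno))
  have hroot : ∀ x, (W.coeff i).eval (v x) = 0 := by
    intro x
    have hpoly : W.map (evalRingHom (v x)) = 0 := by
      apply Polynomial.eq_zero_of_infinite_isRoot
      apply Set.infinite_of_injective_forall_mem (f := fun n : ℕ => x + n * N)
      · intro m n hmn
        have : (m : ℝ) * N = n * N := by
          have : x + (m : ℝ) * N = x + n * N := hmn
          linarith
        have := mul_right_cancel₀ hN.ne' this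
        exact_mod_cast this
      · intro n
        change (W.map (evalRingHom (v x))).eval (x + n * N) = 0
        rw [eval_map, eval₂_evalRingHom, hWV, ← hper' n x]
        exact hw _
    have := congrArg (fun p => p.coeff i) hpoly
    simp only [coeff_map, coeff_zero] at this
    exact this
  -- finitely many values
  have hfin : (Set.range v).Finite := by
    apply ((W.coeff i).roots.toFinset.finite_toSet).subset
    rintro _ ⟨x, rfl⟩
    simp only [Finset.mem_coe, Multiset.mem_toFinset]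
    exact (mem_roots hi).mpr (hroot x)
  have hconn : (Set.range v).Subsingleton := by
    have hpre : IsPreconnected (Set.range v) := isPreconnected_range hs.continuous
    by_contra hns
    rw [Set.not_subsingleton_iff] at hns
    exact hpre.infinite_of_nontrivial hns hfin
  intro x y
  exact hconn ⟨x, rfl⟩ ⟨y, rfl⟩

end Pool.Agent.Lib.MP_2d1a26_lc
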