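import Mathlib

open Set

namespace Pool.Agent.Lib.MP_2d1a26_lc

/-- A continuous function without zeros between two points has the same sign at both. -/
lemma sign_eq_of_no_zero {f : ℝ → ℝ} (hf : Continuous f) {a b : ℝ}
    (h : ∀ t ∈ uIcc a b, f t ≠ 0) : SignType.sign (f a) = SignType.sign (f b) := by
  have hiv := intermediate_value_uIcc (f := f) (a := a) (b := b) hf.continuousOn
  have ha := h a left_mem_uIcc
  have hb := h b right_mem_uIcc
  have h0 : (0 : ℝ) ∉ uIcc (f a) (f b) := by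
    intro h0
    obtain ⟨t, ht, ht0⟩ := hiv h0
    exact h t ht ht0
  rcases lt_or_gt_of_ne ha with ha' | ha' <;> rcases lt_or_gt_of_ne hb with hb' | hb'
  · rw [sign_neg ha', sign_neg hb']
  · exact absurd (by rw [mem_uIcc]; left; exact ⟨ha'.le, hb'.le⟩) h0
  · exact absurd (by rw [mem_uIcc]; right; exact ⟨hb'.le, ha'.le⟩) h0
  · rw [sign_pos ha', sign_pos hb']

/-- Moving one point while fixing finitely many others. -/
lemma exists_move (K : Finset ℝ) (u v : ℝ) (h : ∀ k ∈ K, k ∉ uIcc u v) :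
    ∃ θ : ℝ ≃o ℝ, θ u = v ∧ ∀ k ∈ K, θ k = k := by
  obtain ⟨ε, hε, hεK⟩ : ∃ ε : ℝ, 0 < ε ∧ ∀ k ∈ K, k < min u v - ε ∨ max u v + ε < k := by
    have hev : ∀ k ∈ K, ∀ᶠ ε in nhdsWithin (0 : ℝ) (Ioi 0),
        k < min u v - ε ∨ max u v + ε < k := by
      intro k hk
      have hk' := h k hk
      rw [uIcc, mem_Icc, not_and_or, not_le, not_le] at hk'
      rcases hk' with hk' | hk'
      · have hk'' : k < min u v := hk'
        have : Ioo (0 : ℝ) (min u v - k) ∈ nhdsWithin (0 : ℝ) (Ioi 0) :=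
          Ioo_mem_nhdsGT (by linarith)
        filter_upwards [this] with ε hε
        left; linarith [hε.2]
      · have hk'' : max u v < k := hk'
        have : Ioo (0 : ℝ) (k - max u v) ∈ nhdsWithin (0 : ℝ) (Ioi 0) :=
          Ioo_mem_nhdsGT (by linarith)
        filter_upwards [this] with ε hε
        right; linarith [hε.2]
    have hall := (Filter.eventually_all_finset K).2 hev
    have hpos : ∀ᶠ ε in nhdsWithin (0 : ℝ) (Ioi 0), 0 < ε :=
      eventually_mem_nhdsWithin
    obtain ⟨ε, h1, h2⟩ := (hpos.and hall).exists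
    exact ⟨ε, h1, h2⟩
  set a := min u v - ε with ha
  set b := max u v + ε with hb
  have hau : a < u := by have := min_le_left u v; linarith
  have hav : a < v := by have := min_le_right u v; linarith
  have hub : u < b := by have := le_max_left u v; linarith
  have hvb : v < b := by have := le_max_right u v; linarith
  have hua : 0 < u - a := by linarith
  have hbu : 0 < b - u := by linarith
  let tent : ℝ → ℝ := fun t => max 0 (min ((t - a) / (u - a)) ((b - t) / (b - u)))
  have tent_out : ∀ t, t ≤ a ∨ b ≤ t → tent t = 0 := by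
    intro t ht
    apply max_eq_left
    rcases ht with ht | ht
    · exact (min_le_left _ _).trans (div_nonpos_of_nonpos_of_nonneg (by linarith) hua.le)
    · exact (min_le_right _ _).trans (div_nonpos_of_nonpos_of_nonneg (by linarith) hbu.le)
  have tent_u : tent u = 1 := by
    simp only [tent]
    rw [div_self hua.ne', div_self hbu.ne']
    norm_num
  have tent_up : ∀ s t, s < t → tent t ≤ tent s + (t - s) / (u - a) := by
    intro s t hst
    have h0 : 0 ≤ (t - s) / (u - a) := div_nonneg (by linarith) hua.le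
    simp only [tent]
    apply max_le
    · have := le_max_left 0 (min ((s - a) / (u - a)) ((b - s) / (b - u)))
      linarith
    · have h1 : min ((t - a) / (u - a)) ((b - t) / (b - u)) ≤
          min ((s - a) / (u - a)) ((b - s) / (b - u)) + (t - s) / (u - a) := by
        rw [← min_add_add_right]
        apply min_le_min
        · rw [← add_div]; apply le_of_eq; congr 1; ring
        · have : (b - t) / (b - u) ≤ (b - s) / (b - u) :=
            div_le_div_of_nonneg_right (by linarith) hbu.le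
          linarith
      have h2 := le_max_right 0 (min ((s - a) / (u - a)) ((b - s) / (b - u)))
      linarith
  have tent_down : ∀ s t, s < t → tent s ≤ tent t + (t - s) / (b - u) := by
    intro s t hst
    have h0 : 0 ≤ (t - s) / (b - u) := div_nonneg (by linarith) hbu.le
    simp only [tent]
    apply max_le
    · have := le_max_left 0 (min ((t - a) / (u - a)) ((b - t) / (b - u)))
      linarith
    · have h1 : min ((s - a) / (u - a)) ((b - s) / (b - u)) ≤
          min ((t - a) / (u - a)) ((b - t) / (b - u)) + (t - s) / (b - u) := by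
        rw [← min_add_add_right]
        apply min_le_min
        · have : (s - a) / (u - a) ≤ (t - a) / (u - a) :=
            div_le_div_of_nonneg_right (by linarith) hua.le
          linarith
        · rw [← add_div]; apply le_of_eq; congr 1; ring
      have h2 := le_max_right 0 (min ((t - a) / (u - a)) ((b - t) / (b - u)))
      linarith
  let g : ℝ → ℝ := fun t => t + (v - u) * tent t
  have hg_out : ∀ t, t ≤ a ∨ b ≤ t → g t = t := by
    intro t ht
    simp only [g]
    rw [tent_out t ht]; ring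
  have hmono : StrictMono g := by
    intro s t hst
    simp only [g]
    have h1 := tent_up s t hst
    have h2 := tent_down s t hst
    rcases le_total u v with huv | huv
    · -- v - u ≥ 0
      have h3 : (v - u) * tent s ≤ (v - u) * (tent t + (t - s) / (b - u)) :=
        mul_le_mul_of_nonneg_left h2 (by linarith)
      have h4 : (v - u) * ((t - s) / (b - u)) < t - s := by
        rw [mul_div_assoc', div_lt_iff₀ hbu, mul_comm]
        exact mul_lt_mul_of_pos_left (by linarith) (by linarith)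
      nlinarith
    · have h3 : (u - v) * tent t ≤ (u - v) * (tent s + (t - s) / (u - a)) :=
        mul_le_mul_of_nonneg_left h1 (by linarith)
      have h4 : (u - v) * ((t - s) / (u - a)) < t - s := by
        rw [mul_div_assoc', div_lt_iff₀ hua, mul_comm]
        exact mul_lt_mul_of_pos_left (by linarith) (by linarith)
      nlinarith
  have hcont : Continuous g := by
    simp only [g, tent]
    fun_prop
  have htop : Filter.Tendsto g Filter.atTop Filter.atTop := by
    apply Filter.tendsto_id.congr'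
    filter_upwards [Filter.eventually_ge_atTop b] with t ht
    rw [hg_out t (Or.inr ht)]; rfl
  have hbot : Filter.Tendsto g Filter.atBot Filter.atBot := by
    apply Filter.tendsto_id.congr'
    filter_upwards [Filter.eventually_le_atBot a] with t ht
    rw [hg_out t (Or.inl ht)]; rfl
  have hsurj : Function.Surjective g := hcont.surjective htop hbot
  refine ⟨StrictMono.orderIsoOfSurjective g hmono hsurj, ?_, ?_⟩
  · change g u = v
    simp only [g]
    rw [tent_u]; ring
  · intro k hk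
    change g k = k
    apply hg_out
    rcases hεK k hk with h1 | h1
    · left; exact h1.le
    · right; exact h1.le

/-- A strictly increasing map on a finite set of reals extends to an order automorphism of `ℝ`. -/
lemma exists_extend (S : Finset ℝ) (e : ℝ → ℝ) (he : StrictMonoOn e (S : Set ℝ)) :
    ∃ ψ : ℝ ≃o ℝ, ∀ s ∈ S, ψ s = e s := by
  classical
  induction S using Finset.induction_on with
  | empty => exact ⟨OrderIso.refl ℝ, by simp⟩
  | insert u S hu ih =>
    obtain ⟨ψ, hψ⟩ := ih (he.mono (by simp))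
    obtain ⟨θ, hθu, hθ⟩ := exists_move (S.image e) (ψ u) (e u) (by
      intro k hk hk'
      obtain ⟨s, hs, rfl⟩ := Finset.mem_image.mp hk
      have hsu : s ≠ u := fun e => hu (e ▸ hs)
      have hmem_s : s ∈ ((insert u S : Finset ℝ) : Set ℝ) := by simp [hs]
      have hmem_u : u ∈ ((insert u S : Finset ℝ) : Set ℝ) := by simp
      rcases lt_or_gt_of_ne hsu with hlt | hlt
      · have h1 : e s < e u := he hmem_s hmem_u hlt
        have h2 : e s < ψ u := by rw [← hψ s hs]; exact ψ.strictMono hlt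
        rcases mem_uIcc.mp hk' with h | h
        · linarith [h.1]
        · linarith [h.1]
      · have h1 : e u < e s := he hmem_u hmem_s hlt
        have h2 : ψ u < e s := by rw [← hψ s hs]; exact ψ.strictMono hlt
        rcases mem_uIcc.mp hk' with h | h
        · linarith [h.2]
        · linarith [h.2])
    refine ⟨ψ.trans θ, ?_⟩
    intro s hs
    rcases Finset.mem_insert.mp hs with rfl | hs
    · rw [OrderIso.trans_apply, hθu]
    · rw [OrderIso.trans_apply, hψ s hs]
      exact hθ _ (Finset.mem_image_of_mem e hs)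

/-- `f` is continuous, `R` separates its zeros, and `f` changes sign at zeros outside `R`. -/
structure Nice (f : ℝ → ℝ) (R : Finset ℝ) : Prop where
  cont : Continuous f
  rolle : ∀ s t, s < t → f s = 0 → f t = 0 → ∃ r ∈ R, s < r ∧ r < t
  change : ∀ ρ, f ρ = 0 → ρ ∉ R → ∀ a < ρ, ∀ b > ρ, (∀ r ∈ R, ¬ (a < r ∧ r < b)) → f a * f b < 0

lemma mul_neg_of_sign {a b c d : ℝ} (h1 : SignType.sign a = SignType.sign c)
    (h2 : SignType.sign b = SignType.sign d) (h : a * b < 0) : c * d < 0 := by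
  rcases mul_neg_iff.mp h with ⟨ha, hb⟩ | ⟨ha, hb⟩
  · rw [sign_pos ha] at h1
    rw [sign_neg hb] at h2
    exact mul_neg_of_pos_of_neg (sign_eq_one_iff.mp h1.symm) (sign_eq_neg_one_iff.mp h2.symm)
  · rw [sign_neg ha] at h1
    rw [sign_pos hb] at h2
    exact mul_neg_of_neg_of_pos (sign_eq_neg_one_iff.mp h1.symm) (sign_eq_one_iff.mp h2.symm)

lemma exists_match {f h : ℝ → ℝ} {R : Finset ℝ} (hf : Nice f R) (hh : Nice h R)
    (hs : ∀ r ∈ R, SignType.sign (f r) = SignType.sign (h r))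
    (hlo : ∃ m ∈ R, ∀ t, f t = 0 → m < t) (hhi : ∃ m ∈ R, ∀ t, f t = 0 → t < m)
    {ρ : ℝ} (hρ : f ρ = 0) (hρR : ρ ∉ R) :
    ∃ ρ', h ρ' = 0 ∧ ρ' ∉ R ∧ ∀ r ∈ R, (r < ρ ↔ r < ρ') := by
  obtain ⟨m, hm, hmlo⟩ := hlo
  obtain ⟨M, hM, hMhi⟩ := hhi
  have hne1 : (R.filter (· < ρ)).Nonempty := ⟨m, by simp [hm, hmlo ρ hρ]⟩
  have hne2 : (R.filter (ρ < ·)).Nonempty := ⟨M, by simp [hM, hMhi ρ hρ]⟩
  set a := (R.filter (· < ρ)).max' hne1 with ha
  set b := (R.filter (ρ < ·)).min' hne2 with hb
  have haR : a ∈ R.filter (· < ρ) := Finset.max'_mem _ _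
  have hbR : b ∈ R.filter (ρ < ·) := Finset.min'_mem _ _
  rw [Finset.mem_filter] at haR hbR
  have hamax : ∀ r ∈ R, r < ρ → r ≤ a := fun r hr hlt =>
    Finset.le_max' _ _ (Finset.mem_filter.mpr ⟨hr, hlt⟩)
  have hbmin : ∀ r ∈ R, ρ < r → b ≤ r := fun r hr hlt =>
    Finset.min'_le _ _ (Finset.mem_filter.mpr ⟨hr, hlt⟩)
  have hgap : ∀ r ∈ R, ¬ (a < r ∧ r < b) := by
    rintro r hr ⟨h1, h2⟩
    rcases lt_trichotomy r ρ with h3 | h3 | h3
    · exact absurd (hamax r hr h3) (not_le.mpr h1)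
    · exact hρR (h3 ▸ hr)
    · exact absurd (hbmin r hr h3) (not_le.mpr h2)
  have hneg : f a * f b < 0 := hf.change ρ hρ hρR a haR.2 b hbR.2 hgap
  have hneg' : h a * h b < 0 := mul_neg_of_sign (hs a haR.1) (hs b hbR.1) hneg
  have hab : a < b := haR.2.trans hbR.2
  obtain ⟨ρ', hρ'mem, hρ'⟩ : ∃ ρ' ∈ Ioo a b, h ρ' = 0 := by
    rcases mul_neg_iff.mp hneg' with ⟨h1, h2⟩ | ⟨h1, h2⟩
    · obtain ⟨x, hx, hx0⟩ := intermediate_value_Ioo' hab.le hh.cont.continuousOn ⟨h2, h1⟩
      exact ⟨x, hx, hx0⟩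
    · obtain ⟨x, hx, hx0⟩ := intermediate_value_Ioo hab.le hh.cont.continuousOn ⟨h1, h2⟩
      exact ⟨x, hx, hx0⟩
  refine ⟨ρ', hρ', fun hmem => hgap ρ' hmem hρ'mem, ?_⟩
  intro r hr
  constructor
  · intro hlt
    exact lt_of_le_of_lt (hamax r hr hlt) hρ'mem.1
  · intro hlt
    by_contra hge
    have hne : r ≠ ρ := fun e => hρR (e ▸ hr)
    have hgt : ρ < r := lt_of_le_of_ne (not_lt.mp hge) hne.symm
    have := hbmin r hr hgt
    linarith [hρ'mem.2]

/-- The refinement step: two nice functions with the same signs on `R` become sign-equivalent after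
an order automorphism fixing `R`. -/
lemma exists_refine {f h : ℝ → ℝ} {R Z : Finset ℝ} (hf : Nice f R) (hh : Nice h R)
    (hs : ∀ r ∈ R, SignType.sign (f r) = SignType.sign (h r))
    (hZ : ∀ t, f t = 0 → t ∈ Z)
    (hlo : ∃ m ∈ R, ∀ t, (f t = 0 ∨ h t = 0) → m < t)
    (hhi : ∃ m ∈ R, ∀ t, (f t = 0 ∨ h t = 0) → t < m) :
    ∃ ψ : ℝ ≃o ℝ, (∀ r ∈ R, ψ r = r) ∧ ∀ t, SignType.sign (f t) = SignType.sign (h (ψ t)) := by
  classical
  obtain ⟨m, hm, hmlo⟩ := hlo
  obtain ⟨M, hM, hMhi⟩ := hhi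
  have hmatch : ∀ ρ, f ρ = 0 ∧ ρ ∉ R → ∃ ρ', h ρ' = 0 ∧ ρ' ∉ R ∧ ∀ r ∈ R, (r < ρ ↔ r < ρ') := by
    rintro ρ ⟨h1, h2⟩
    exact exists_match hf hh hs ⟨m, hm, fun t ht => hmlo t (Or.inl ht)⟩
      ⟨M, hM, fun t ht => hMhi t (Or.inl ht)⟩ h1 h2
  have hmatch' : ∀ ρ, h ρ = 0 → ρ ∉ R → ∃ ρ', f ρ' = 0 ∧ ρ' ∉ R ∧ ∀ r ∈ R, (r < ρ ↔ r < ρ') := by
    intro ρ h1 h2
    exact exists_match hh hf (fun r hr => (hs r hr).symm) ⟨m, hm, fun t ht => hmlo t (Or.inr ht)⟩
      ⟨M, hM, fun t ht => hMhi t (Or.inr ht)⟩ h1 h2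
  choose! μ hμ0 hμR hμ using hmatch
  let e : ℝ → ℝ := fun t => if t ∈ R then t else μ t
  let S : Finset ℝ := R ∪ Z.filter (fun t => f t = 0)
  have heR : ∀ t ∈ R, e t = t := fun t ht => by simp [e, ht]
  have heN : ∀ t, t ∉ R → e t = μ t := fun t ht => by simp [e, ht]
  have hmemS : ∀ t ∈ S, t ∉ R → f t = 0 := by
    intro t ht htR
    rcases Finset.mem_union.mp ht with h1 | h1
    · exact absurd h1 htR
    · exact (Finset.mem_filter.mp h1).2
  -- position facts
  have hpos1 : ∀ t, f t = 0 → t ∉ R → ∀ r ∈ R, r < t → r < μ t := by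
    intro t h1 h2 r hr hlt
    exact (hμ t ⟨h1, h2⟩ r hr).mp hlt
  have hpos2 : ∀ t, f t = 0 → t ∉ R → ∀ r ∈ R, t < r → μ t < r := by
    intro t h1 h2 r hr hlt
    have h3 : ¬ r < μ t := fun h4 => absurd ((hμ t ⟨h1, h2⟩ r hr).mpr h4) (not_lt.mpr hlt.le)
    have h4 : r ≠ μ t := fun h5 => hμR t ⟨h1, h2⟩ (h5 ▸ hr)
    exact lt_of_le_of_ne (not_lt.mp h3) h4.symm
  have hmono : StrictMonoOn e (S : Set ℝ) := by
    intro s hs' t ht' hst
    by_cases hsR : s ∈ R <;> by_cases htR : t ∈ R
    · rw [heR s hsR, heR t htR]; exact hst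
    · rw [heR s hsR, heN t htR]
      exact hpos1 t (hmemS t ht' htR) htR s hsR hst
    · rw [heN s hsR, heR t htR]
      exact hpos2 s (hmemS s hs' hsR) hsR t htR hst
    · rw [heN s hsR, heN t htR]
      obtain ⟨r, hr, h1, h2⟩ := hf.rolle s t hst (hmemS s hs' hsR) (hmemS t ht' htR)
      exact (hpos2 s (hmemS s hs' hsR) hsR r hr h1).trans (hpos1 t (hmemS t ht' htR) htR r hr h2)
  obtain ⟨ψ, hψ⟩ := exists_extend S e hmono
  have hψR : ∀ r ∈ R, ψ r = r := by
    intro r hr
    rw [hψ r (Finset.mem_union_left _ hr), heR r hr]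
  have hψZ : ∀ t, f t = 0 → t ∉ R → ψ t = μ t := by
    intro t ht htR
    rw [hψ t (Finset.mem_union_right _ (Finset.mem_filter.mpr ⟨hZ t ht, ht⟩)), heN t htR]
  have hzero1 : ∀ t, f t = 0 → h (ψ t) = 0 := by
    intro t ht
    by_cases htR : t ∈ R
    · rw [hψR t htR]
      have := hs t htR
      rw [ht, sign_zero] at this
      exact sign_eq_zero_iff.mp this.symm
    · rw [hψZ t ht htR]
      exact hμ0 t ⟨ht, htR⟩
  have hzero2 : ∀ t, h (ψ t) = 0 → f t = 0 := by
    intro t ht
    by_cases htR : ψ t ∈ R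
    · have h1 : ψ (ψ t) = ψ t := hψR _ htR
      have h2 : ψ t = t := ψ.injective h1
      rw [h2] at ht htR
      have := hs t htR
      rw [ht, sign_zero] at this
      exact sign_eq_zero_iff.mp this
    · obtain ⟨ρ, hρ0, hρR, hρ⟩ := hmatch' (ψ t) ht htR
      have h1 : ψ ρ = μ ρ := hψZ ρ hρ0 hρR
      have h2 : h (μ ρ) = 0 := hμ0 ρ ⟨hρ0, hρR⟩
      have h3 : μ ρ = ψ t := by
        rcases lt_trichotomy (μ ρ) (ψ t) with h4 | h4 | h4
        · obtain ⟨r, hr, h5, h6⟩ := hh.rolle _ _ h4 h2 ht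
          have h7 := (hρ r hr).mp h6
          have h8 := (hμ ρ ⟨hρ0, hρR⟩ r hr).mp h7
          exact absurd h8 (not_lt.mpr h5.le)
        · exact h4
        · obtain ⟨r, hr, h5, h6⟩ := hh.rolle _ _ h4 ht h2
          have h7 := (hμ ρ ⟨hρ0, hρR⟩ r hr).mpr h6
          have h8 := (hρ r hr).mpr h7
          exact absurd h8 (not_lt.mpr h5.le)
      have h4 : ψ ρ = ψ t := by rw [h1, h3]
      rw [← ψ.injective h4]; exact hρ0
  refine ⟨ψ, hψR, ?_⟩
  intro t
  by_cases ht : f t = 0
  · rw [ht, hzero1 t ht]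
  -- find `r ∈ R` not separated from `t` by zeros of `f`
  obtain ⟨r, hr, hno⟩ : ∃ r ∈ R, ∀ z ∈ uIcc t r, f z ≠ 0 := by
    by_cases hup : ∃ z, f z = 0 ∧ t < z
    · by_cases hdown : ∃ z, f z = 0 ∧ z < t
      · have hne1 : (Z.filter (fun z => f z = 0 ∧ z < t)).Nonempty := by
          obtain ⟨z, hz, hzt⟩ := hdown
          exact ⟨z, by simp [hZ z hz, hz, hzt]⟩
        have hne2 : (Z.filter (fun z => f z = 0 ∧ t < z)).Nonempty := by
          obtain ⟨z, hz, hzt⟩ := hup
          exact ⟨z, by simp [hZ z hz, hz, hzt]⟩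
        set ρ1 := (Z.filter (fun z => f z = 0 ∧ z < t)).max' hne1 with hρ1
        set ρ2 := (Z.filter (fun z => f z = 0 ∧ t < z)).min' hne2 with hρ2
        have h1 : ρ1 ∈ Z.filter (fun z => f z = 0 ∧ z < t) := Finset.max'_mem _ _
        have h2 : ρ2 ∈ Z.filter (fun z => f z = 0 ∧ t < z) := Finset.min'_mem _ _
        rw [Finset.mem_filter] at h1 h2
        have h1max : ∀ z, f z = 0 → z < t → z ≤ ρ1 := fun z hz hzt =>
          Finset.le_max' _ _ (Finset.mem_filter.mpr ⟨hZ z hz, hz, hzt⟩)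
        have h2min : ∀ z, f z = 0 → t < z → ρ2 ≤ z := fun z hz hzt =>
          Finset.min'_le _ _ (Finset.mem_filter.mpr ⟨hZ z hz, hz, hzt⟩)
        obtain ⟨r, hr, hr1, hr2⟩ := hf.rolle ρ1 ρ2 (h1.2.2.trans h2.2.2) h1.2.1 h2.2.1
        refine ⟨r, hr, ?_⟩
        intro z hz hz0
        rcases lt_trichotomy z t with h3 | h3 | h3
        · have h4 := h1max z hz0 h3
          rcases mem_uIcc.mp hz with h5 | h5
          · linarith [h5.1]
          · linarith [h5.1]
        · exact ht (h3 ▸ hz0)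
        · have h4 := h2min z hz0 h3
          rcases mem_uIcc.mp hz with h5 | h5
          · linarith [h5.2]
          · linarith [h5.2]
      · push Not at hdown
        refine ⟨m, hm, ?_⟩
        intro z hz hz0
        have h1 := hmlo z (Or.inl hz0)
        have h2 := hdown z hz0
        have h3 : z ≠ t := fun e => ht (e ▸ hz0)
        rcases mem_uIcc.mp hz with h5 | h5
        · exact absurd h5.2 (not_le.mpr h1)
        · exact h3 (le_antisymm h5.2 h2)
    · push Not at hup
      refine ⟨M, hM, ?_⟩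
      intro z hz hz0
      have h1 := hMhi z (Or.inl hz0)
      have h2 := hup z hz0
      have h3 : z ≠ t := fun e => ht (e ▸ hz0)
      rcases mem_uIcc.mp hz with h5 | h5
      · exact h3 (le_antisymm h2 h5.1)
      · exact absurd h5.1 (not_le.mpr h1)
  have h1 : SignType.sign (f t) = SignType.sign (f r) := sign_eq_of_no_zero hf.cont hno
  have h2 : SignType.sign (h (ψ t)) = SignType.sign (h (ψ r)) := by
    apply sign_eq_of_no_zero hh.cont
    intro z hz hz0
    have hz' : ψ.symm z ∈ uIcc t r := by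
      rcases mem_uIcc.mp hz with h5 | h5
      · apply mem_uIcc.mpr; left
        exact ⟨by rw [ψ.le_symm_apply]; exact h5.1, by rw [ψ.symm_apply_le]; exact h5.2⟩
      · apply mem_uIcc.mpr; right
        exact ⟨by rw [ψ.le_symm_apply]; exact h5.1, by rw [ψ.symm_apply_le]; exact h5.2⟩
    exact hno _ hz' (hzero2 _ (by rw [ψ.apply_symm_apply]; exact hz0))
  rw [h1, h2, hψR r hr, hs r hr]

end Pool.Agent.Lib.MP_2d1a26_lc
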