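import Mathlib
import Pool.Agent.Lib.MP_2d1a26_lc.OrderIsoLemmas

open Set Polynomial

namespace Pool.Agent.Lib.MP_2d1a26_lc

/-- A real polynomial is nice with respect to any finite set containing the zeros of its
derivative. -/
lemma nice_poly (p : ℝ[X]) (R : Finset ℝ) (hR : ∀ t, p.derivative.eval t = 0 → t ∈ R) :
    Nice (fun t => p.eval t) R where
  cont := p.continuous
  rolle := by
    intro s t hst hs ht
    obtain ⟨c, hc, hc0⟩ := exists_deriv_eq_zero (f := fun t => p.eval t) hst
      p.continuous.continuousOn (hs.trans ht.symm)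
    rw [Polynomial.deriv] at hc0
    exact ⟨c, hR c hc0, hc.1, hc.2⟩
  change := by
    intro ρ hρ hρR a ha b hb hgap
    have hab : a < b := ha.trans hb
    have hne : ∀ x ∈ Ioo a b, p.derivative.eval x ≠ 0 := by
      intro x hx hx0
      exact hgap x (hR x hx0) hx
    have hsign : ∀ x ∈ Ioo a b, SignType.sign (p.derivative.eval x) =
        SignType.sign (p.derivative.eval ρ) := by
      intro x hx
      apply sign_eq_of_no_zero (f := fun t => p.derivative.eval t) p.derivative.continuous
      intro t ht
      apply hne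
      exact (ordConnected_Ioo.uIcc_subset hx ⟨ha, hb⟩) ht
    rcases lt_or_gt_of_ne (hne ρ ⟨ha, hb⟩) with hlt | hgt
    · have hanti : StrictAntiOn (fun t => p.eval t) (Icc a b) := by
        apply strictAntiOn_of_deriv_neg (convex_Icc a b) p.continuous.continuousOn
        intro x hx
        rw [interior_Icc] at hx
        rw [Polynomial.deriv]
        have := hsign x hx
        rw [sign_neg hlt] at this
        exact sign_eq_neg_one_iff.mp this
      have h1 := hanti (left_mem_Icc.mpr hab.le) ⟨ha.le, hb.le⟩ ha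
      have h2 := hanti ⟨ha.le, hb.le⟩ (right_mem_Icc.mpr hab.le) hb
      simp only at h1 h2 hρ
      rw [hρ] at h1 h2
      exact mul_neg_of_pos_of_neg h1 h2
    · have hmono : StrictMonoOn (fun t => p.eval t) (Icc a b) := by
        apply strictMonoOn_of_deriv_pos (convex_Icc a b) p.continuous.continuousOn
        intro x hx
        rw [interior_Icc] at hx
        rw [Polynomial.deriv]
        have := hsign x hx
        rw [sign_pos hgt] at this
        exact sign_eq_one_iff.mp this
      have h1 := hmono (left_mem_Icc.mpr hab.le) ⟨ha.le, hb.le⟩ ha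
      have h2 := hmono ⟨ha.le, hb.le⟩ (right_mem_Icc.mpr hab.le) hb
      simp only at h1 h2 hρ
      rw [hρ] at h1 h2
      exact mul_neg_of_neg_of_pos h1 h2

/-- Niceness is preserved by precomposition with an order automorphism. -/
lemma Nice.comp {f : ℝ → ℝ} {R : Finset ℝ} (φ : ℝ ≃o ℝ) (h : Nice f (R.image φ)) :
    Nice (fun t => f (φ t)) R where
  cont := h.cont.comp φ.continuous
  rolle := by
    intro s t hst hs ht
    obtain ⟨r, hr, h1, h2⟩ := h.rolle (φ s) (φ t) (φ.strictMono hst) hs ht
    obtain ⟨r', hr', rfl⟩ := Finset.mem_image.mp hr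
    exact ⟨r', hr', φ.lt_iff_lt.mp h1, φ.lt_iff_lt.mp h2⟩
  change := by
    intro ρ hρ hρR a ha b hb hgap
    apply h.change (φ ρ) hρ _ (φ a) (φ.strictMono ha) (φ b) (φ.strictMono hb)
    · intro r hr
      obtain ⟨r', hr', rfl⟩ := Finset.mem_image.mp hr
      rintro ⟨h1, h2⟩
      exact hgap r' hr' ⟨φ.lt_iff_lt.mp h1, φ.lt_iff_lt.mp h2⟩
    · intro hmem
      obtain ⟨r', hr', he⟩ := Finset.mem_image.mp hmem
      exact hρR (φ.injective he ▸ hr')

/-- Eventual sign of a nonconstant polynomial at `+∞`. -/
lemma eventually_sign_atTop (p : ℝ[X]) (hp : p ≠ 0) :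
    ∀ᶠ t in Filter.atTop, SignType.sign (p.eval t) = SignType.sign p.leadingCoeff := by
  rcases Nat.eq_zero_or_pos p.natDegree with h0 | hpos
  · rw [Polynomial.eq_C_of_natDegree_eq_zero h0]
    simp
  · have hdeg : 0 < p.degree := Polynomial.natDegree_pos_iff_degree_pos.mp hpos
    rcases lt_or_gt_of_ne (Polynomial.leadingCoeff_ne_zero.mpr hp) with h | h
    · have := Polynomial.tendsto_atBot_of_leadingCoeff_nonpos p hdeg h.le
      filter_upwards [this.eventually_lt_atBot 0] with t ht
      rw [sign_neg ht, sign_neg h]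
    · have := Polynomial.tendsto_atTop_of_leadingCoeff_nonneg p hdeg h.le
      filter_upwards [this.eventually_gt_atTop 0] with t ht
      rw [sign_pos ht, sign_pos h]

/-- Eventual sign at `-∞`. -/
lemma eventually_sign_atBot (p : ℝ[X]) (hp : p ≠ 0) :
    ∀ᶠ t in Filter.atBot, SignType.sign (p.eval t) =
      SignType.sign ((-1) ^ p.natDegree * p.leadingCoeff) := by
  have hdeg : (-X : ℝ[X]).natDegree = 1 := by rw [natDegree_neg, natDegree_X]
  have hne : p.comp (-X) ≠ 0 := by
    intro h
    rw [Polynomial.comp_eq_zero_iff] at h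
    rcases h with h | ⟨-, h⟩
    · exact hp h
    · have := congrArg natDegree h
      rw [hdeg, natDegree_C] at this
      exact one_ne_zero this
  have h1 := eventually_sign_atTop (p.comp (-X)) hne
  have h2 : (p.comp (-X)).leadingCoeff = (-1) ^ p.natDegree * p.leadingCoeff := by
    rw [Polynomial.leadingCoeff_comp (by rw [hdeg]; exact one_ne_zero)]
    simp [mul_comm]
  rw [h2] at h1
  have h3 := Filter.tendsto_neg_atBot_atTop.eventually h1
  filter_upwards [h3] with t ht
  simpa using ht

section

variable {A : Type*} [CommRing A]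

/-- Pseudo-division. -/
lemma exists_pseudo_div (g : A[X]) (hg : 1 ≤ g.natDegree) (n : ℕ) :
    ∀ f : A[X], f.natDegree = n → ∃ (k : ℕ) (q r : A[X]),
      C (g.leadingCoeff ^ k) * f = q * g + r ∧ r.natDegree < g.natDegree := by
  induction n using Nat.strong_induction_on with
  | _ n ih =>
    intro f hf
    by_cases hlt : f.natDegree < g.natDegree
    · exact ⟨0, 0, f, by simp, hlt⟩
    · push Not at hlt
      obtain ⟨d, hd⟩ := Nat.exists_eq_add_of_le hlt
      set b := g.leadingCoeff with hb
      set f1 : A[X] := C b * f - C f.leadingCoeff * X ^ d * g with hf1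
      have hle : f1.natDegree ≤ f.natDegree := by
        rw [hf1]
        apply (natDegree_sub_le _ _).trans
        apply max_le
        · exact natDegree_C_mul_le _ _
        · apply (natDegree_mul_le).trans
          apply (add_le_add_left (natDegree_C_mul_X_pow_le _ _) _).trans
          omega
      have hcoeff : f1.coeff f.natDegree = 0 := by
        rw [hf1, coeff_sub, coeff_C_mul, mul_assoc, coeff_C_mul]
        have h1 : (X ^ d * g).coeff f.natDegree = g.leadingCoeff := by
          rw [hd, coeff_X_pow_mul, coeff_natDegree]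
        rw [h1, coeff_natDegree, hb]; ring
      have hlt' : f1.natDegree < n := by
        rw [← hf]
        rcases lt_or_eq_of_le hle with h | h
        · exact h
        · exfalso
          have h0 : f1.leadingCoeff = 0 := by rw [leadingCoeff, h, hcoeff]
          rw [leadingCoeff_eq_zero] at h0
          rw [h0] at h
          simp at h
          omega
      obtain ⟨k, q, r, h1, h2⟩ := ih f1.natDegree hlt' f1 rfl
      refine ⟨k + 1, q + C (b ^ k) * (C f.leadingCoeff * X ^ d), r, ?_, h2⟩
      have h3 : C (b ^ k) * f1 = q * g + r := h1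
      rw [hf1] at h3
      rw [pow_succ, C_mul]
      linear_combination h3

/-- The pseudo-remainder of `f` by `g` (zero if `g` is constant). -/
noncomputable def prem (f g : A[X]) : A[X] := by
  classical
  exact if hg : 1 ≤ g.natDegree then (exists_pseudo_div g hg f.natDegree f rfl).choose_spec.choose_spec.choose
    else 0

lemma prem_spec (f g : A[X]) (hg : 1 ≤ g.natDegree) :
    (∃ (k : ℕ) (q : A[X]), C (g.leadingCoeff ^ k) * f = q * g + prem f g) ∧
      (prem f g).natDegree < g.natDegree := by
  have h := (exists_pseudo_div g hg f.natDegree f rfl).choose_spec.choose_spec.choose_spec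
  have he : prem f g =
      (exists_pseudo_div g hg f.natDegree f rfl).choose_spec.choose_spec.choose := by
    unfold prem
    rw [dif_pos hg]
  rw [he]
  exact ⟨⟨_, _, h.1⟩, h.2⟩

/-- Two evaluations give the same signs on `G`. -/
def SameSigns (G : Finset A) (φ φ' : A →+* ℝ) : Prop :=
  ∀ g ∈ G, SignType.sign (φ g) = SignType.sign (φ' g)

/-- The families `F` evaluated at `φ` and `φ'` are sign-equivalent. -/
def SignEquiv (F : Multiset A[X]) (φ φ' : A →+* ℝ) : Prop :=
  ∃ ψ : ℝ ≃o ℝ, ∀ f ∈ F, ∀ t : ℝ,
    SignType.sign (f.eval₂ φ t) = SignType.sign (f.eval₂ φ' (ψ t))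

lemma SameSigns.mono {G G' : Finset A} {φ φ' : A →+* ℝ} (h : SameSigns G φ φ') (hG : G' ⊆ G) :
    SameSigns G' φ φ' := fun g hg => h g (hG hg)

lemma SignEquiv.mono {F F' : Multiset A[X]} {φ φ' : A →+* ℝ} (h : SignEquiv F φ φ')
    (hF : ∀ f ∈ F', f ∈ F) : SignEquiv F' φ φ' := by
  obtain ⟨ψ, hψ⟩ := h
  exact ⟨ψ, fun f hf => hψ f (hF f hf)⟩

lemma map_natDegree_eq {f : A[X]} {φ : A →+* ℝ} (h : φ f.leadingCoeff ≠ 0) :
    (f.map φ).natDegree = f.natDegree := natDegree_map_of_leadingCoeff_ne_zero φ h

lemma eval₂_eraseLead {f : A[X]} {φ : A →+* ℝ} (h : φ f.leadingCoeff = 0) (t : ℝ) :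
    f.eval₂ φ t = f.eraseLead.eval₂ φ t := by
  conv_lhs => rw [← f.eraseLead_add_C_mul_X_pow]
  rw [eval₂_add, eval₂_mul, eval₂_C, h, zero_mul, add_zero]

/-- The leading coefficient of the derivative. -/
lemma derivative_lead {f : A[X]} {φ : A →+* ℝ} (hd : 1 ≤ f.natDegree)
    (h : φ f.leadingCoeff ≠ 0) :
    f.derivative.natDegree = f.natDegree - 1 ∧ φ f.derivative.leadingCoeff ≠ 0 := by
  have hc : f.derivative.coeff (f.natDegree - 1) = f.leadingCoeff * f.natDegree := by
    rw [coeff_derivative]
    have : f.natDegree - 1 + 1 = f.natDegree := by omega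
    rw [this, coeff_natDegree]
    congr 1
    have h2 : ((f.natDegree - 1 : ℕ) : A) + 1 = ((f.natDegree - 1 + 1 : ℕ) : A) := by push_cast; ring
    rw [h2, this]
  have hne : φ (f.derivative.coeff (f.natDegree - 1)) ≠ 0 := by
    rw [hc, map_mul, map_natCast]
    apply mul_ne_zero h
    have : 0 < f.natDegree := by omega
    exact_mod_cast this.ne'
  have hne' : f.derivative.coeff (f.natDegree - 1) ≠ 0 := fun e => hne (by rw [e, map_zero])
  have h1 : f.derivative.natDegree = f.natDegree - 1 :=
    le_antisymm (natDegree_derivative_le f) (le_natDegree_of_ne_zero hne')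
  refine ⟨h1, ?_⟩
  rw [leadingCoeff, h1]
  exact hne

/-- Sign of the leading coefficient controls the sign of `f` at a zero of `g` through the
pseudo-remainder. -/
lemma sign_at_zero {f g : A[X]} (hg : 1 ≤ g.natDegree) {φ φ' : A →+* ℝ}
    (hlc : φ g.leadingCoeff ≠ 0)
    (hs : SignType.sign (φ g.leadingCoeff) = SignType.sign (φ' g.leadingCoeff)) {t t' : ℝ}
    (ht : g.eval₂ φ t = 0) (ht' : g.eval₂ φ' t' = 0)
    (hr : SignType.sign ((prem f g).eval₂ φ t) = SignType.sign ((prem f g).eval₂ φ' t')) :
    SignType.sign (f.eval₂ φ t) = SignType.sign (f.eval₂ φ' t') := by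
  obtain ⟨⟨k, q, hkq⟩, -⟩ := prem_spec f g hg
  have h1 : (φ g.leadingCoeff) ^ k * f.eval₂ φ t = (prem f g).eval₂ φ t := by
    have := congrArg (eval₂ φ t) hkq
    rw [eval₂_mul, eval₂_C, eval₂_add, eval₂_mul, ht, mul_zero, zero_add, map_pow] at this
    exact this
  have h2 : (φ' g.leadingCoeff) ^ k * f.eval₂ φ' t' = (prem f g).eval₂ φ' t' := by
    have := congrArg (eval₂ φ' t') hkq
    rw [eval₂_mul, eval₂_C, eval₂_add, eval₂_mul, ht', mul_zero, zero_add, map_pow] at this
    exact this
  rw [← h1, ← h2, sign_mul, sign_mul, sign_pow, sign_pow, hs] at hr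
  have hne : SignType.sign (φ' g.leadingCoeff) ^ k ≠ 0 := by
    apply pow_ne_zero
    rw [← hs]
    exact sign_ne_zero.mpr hlc
  exact mul_left_cancel₀ hne hr

lemma sign_fix {p : ℝ → ℝ} (hp : Continuous p) {ψ : ℝ ≃o ℝ} (hψ : ∀ z, p z = 0 → ψ z = z) (t : ℝ) :
    SignType.sign (p t) = SignType.sign (p (ψ t)) := by
  by_cases ht : p t = 0
  · rw [hψ t ht]
  · apply sign_eq_of_no_zero hp
    intro z hz hz0
    have hzf := hψ z hz0
    have hne : z ≠ t := fun e => ht (e ▸ hz0)
    rcases mem_uIcc.mp hz with h | h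
    · have h1 : t < z := lt_of_le_of_ne h.1 hne.symm
      have h2 := ψ.strictMono h1
      rw [hzf] at h2
      exact absurd h.2 (not_le.mpr h2)
    · have h1 : z < t := lt_of_le_of_ne h.2 hne
      have h2 := ψ.strictMono h1
      rw [hzf] at h2
      exact absurd h.1 (not_le.mpr h2)

/-- The refinement step for families with nonvanishing leading coefficients. -/
lemma signEquiv_step (f : A[X]) (F0 : Multiset A[X]) (hd : 1 ≤ f.natDegree) (φ φ' : A →+* ℝ)
    (hlead : ∀ g ∈ f.derivative ::ₘ f ::ₘ F0, 1 ≤ g.natDegree → φ g.leadingCoeff ≠ 0)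
    (hsig : ∀ g ∈ f.derivative ::ₘ f ::ₘ F0,
      SignType.sign (φ g.leadingCoeff) = SignType.sign (φ' g.leadingCoeff))
    (φ1 : ℝ ≃o ℝ)
    (h1 : ∀ g ∈ f.derivative ::ₘ F0, ∀ t : ℝ,
      SignType.sign (g.eval₂ φ t) = SignType.sign (g.eval₂ φ' (φ1 t)))
    (h2 : ∀ g ∈ f.derivative ::ₘ F0, 1 ≤ g.natDegree → ∀ t : ℝ,
      SignType.sign ((prem f g).eval₂ φ t) = SignType.sign ((prem f g).eval₂ φ' (φ1 t))) :
    SignEquiv (f ::ₘ F0) φ φ' := by
  classical
  have hlf : φ f.leadingCoeff ≠ 0 := hlead f (by simp) hd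
  have hsf : SignType.sign (φ f.leadingCoeff) = SignType.sign (φ' f.leadingCoeff) :=
    hsig f (by simp)
  have hlf' : φ' f.leadingCoeff ≠ 0 := by
    intro h0
    rw [h0, sign_zero] at hsf
    exact hlf (sign_eq_zero_iff.mp hsf)
  have hdeg : (f.map φ).natDegree = f.natDegree := map_natDegree_eq hlf
  have hdeg' : (f.map φ').natDegree = f.natDegree := map_natDegree_eq hlf'
  have hne : f.map φ ≠ 0 := by
    intro h0; rw [h0, natDegree_zero] at hdeg; omega
  have hne' : f.map φ' ≠ 0 := by
    intro h0; rw [h0, natDegree_zero] at hdeg'; omega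
  have hlc : (f.map φ).leadingCoeff = φ f.leadingCoeff := by
    rw [leadingCoeff, hdeg, coeff_map]; rfl
  have hlc' : (f.map φ').leadingCoeff = φ' f.leadingCoeff := by
    rw [leadingCoeff, hdeg', coeff_map]; rfl
  have hdne : f.derivative.map φ ≠ 0 := by
    intro h0
    have h3 := (derivative_lead hd hlf)
    have h4 : (f.derivative.map φ).coeff f.derivative.natDegree = 0 := by rw [h0, coeff_zero]
    rw [coeff_map] at h4
    exact h3.2 h4
  -- large and small points
  obtain ⟨M0, hM0⟩ := Filter.eventually_atTop.mp (eventually_sign_atTop (f.map φ) hne)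
  obtain ⟨M1, hM1⟩ := Filter.eventually_atTop.mp (eventually_sign_atTop (f.map φ') hne')
  obtain ⟨m0, hm0⟩ := Filter.eventually_atBot.mp (eventually_sign_atBot (f.map φ) hne)
  obtain ⟨m1, hm1⟩ := Filter.eventually_atBot.mp (eventually_sign_atBot (f.map φ') hne')
  rw [hlc] at hM0
  rw [hlc'] at hM1
  rw [hlc, hdeg] at hm0
  rw [hlc', hdeg'] at hm1
  set M := max M0 (φ1.symm M1) with hM
  set m := min m0 (φ1.symm m1) with hm
  have hMp : ∀ t, M ≤ t → SignType.sign ((f.map φ).eval t) = SignType.sign (φ f.leadingCoeff) :=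
    fun t ht => hM0 t ((le_max_left _ _).trans ht)
  have hMq : ∀ t, M ≤ t → SignType.sign ((f.map φ').eval (φ1 t)) =
      SignType.sign (φ' f.leadingCoeff) := fun t ht => hM1 _ (by
    rw [← φ1.symm_apply_le]; exact (le_max_right _ _).trans ht)
  have hmp : ∀ t, t ≤ m → SignType.sign ((f.map φ).eval t) =
      SignType.sign ((-1) ^ f.natDegree * φ f.leadingCoeff) :=
    fun t ht => hm0 t (ht.trans (min_le_left _ _))
  have hmq : ∀ t, t ≤ m → SignType.sign ((f.map φ').eval (φ1 t)) =
      SignType.sign ((-1) ^ f.natDegree * φ' f.leadingCoeff) := fun t ht => hm1 _ (by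
    rw [← φ1.le_symm_apply]; exact ht.trans (min_le_right _ _))
  have hpow : ((-1 : ℝ) ^ f.natDegree) ≠ 0 := pow_ne_zero _ (by norm_num)
  let R : Finset ℝ := (f.derivative ::ₘ F0).toFinset.biUnion (fun g => (g.map φ).roots.toFinset) ∪
    {m, M}
  have hmR : m ∈ R := Finset.mem_union_right _ (by simp)
  have hMR : M ∈ R := Finset.mem_union_right _ (by simp)
  have hRroot : ∀ g ∈ f.derivative ::ₘ F0, g.map φ ≠ 0 → ∀ t, (g.map φ).eval t = 0 → t ∈ R := by
    intro g hg hg0 t ht
    apply Finset.mem_union_left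
    apply Finset.mem_biUnion.mpr
    exact ⟨g, Multiset.mem_toFinset.mpr hg, by
      rw [Multiset.mem_toFinset, mem_roots hg0]; exact ht⟩
  have hder : (f.map φ).derivative = f.derivative.map φ := derivative_map f φ
  have hder' : (f.map φ').derivative = f.derivative.map φ' := derivative_map f φ'
  have hRd : ∀ t, (f.map φ).derivative.eval t = 0 → t ∈ R := by
    intro t ht
    rw [hder] at ht
    exact hRroot _ (Multiset.mem_cons_self _ _) hdne t ht
  have hnp : Nice (fun t => (f.map φ).eval t) R := nice_poly _ R hRd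
  have hnq : Nice (fun t => (f.map φ').eval (φ1 t)) R := by
    apply Nice.comp φ1 (f := fun t => (f.map φ').eval t)
    apply nice_poly
    intro t ht
    have h3 := h1 f.derivative (Multiset.mem_cons_self _ _) (φ1.symm t)
    rw [φ1.apply_symm_apply, ← eval_map, ← eval_map, ← hder', ht, sign_zero] at h3
    have h4 := hRroot _ (Multiset.mem_cons_self _ _) hdne _ (sign_eq_zero_iff.mp h3)
    exact Finset.mem_image.mpr ⟨_, h4, φ1.apply_symm_apply t⟩
  obtain ⟨ψ0, hψR, hψ⟩ := exists_refine (Z := (f.map φ).roots.toFinset) hnp hnq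
    (by
      intro r hr
      change SignType.sign ((f.map φ).eval r) = SignType.sign ((f.map φ').eval (φ1 r))
      rcases Finset.mem_union.mp hr with hr | hr
      · obtain ⟨g, hg, hgr⟩ := Finset.mem_biUnion.mp hr
        rw [Multiset.mem_toFinset] at hg hgr
        have hg0 : g.map φ ≠ 0 := by
          intro h0; rw [h0] at hgr; simp at hgr
        rw [mem_roots hg0] at hgr
        have hgd : 1 ≤ g.natDegree := by
          by_contra hlt
          have h3 : g.natDegree = 0 := by omega
          rw [eq_C_of_natDegree_eq_zero h3, map_C] at hgr hg0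
          rw [IsRoot, eval_C] at hgr
          rw [hgr, C_0] at hg0
          exact hg0 rfl
        have hgin : g ∈ f.derivative ::ₘ f ::ₘ F0 := by
          rcases Multiset.mem_cons.mp hg with h3 | h3
          · rw [h3]; exact Multiset.mem_cons_self _ _
          · exact Multiset.mem_cons_of_mem (Multiset.mem_cons_of_mem h3)
        have ht : g.eval₂ φ r = 0 := by rw [← eval_map]; exact hgr
        have ht' : g.eval₂ φ' (φ1 r) = 0 := by
          have h3 := h1 g hg r
          rw [ht, sign_zero] at h3
          exact sign_eq_zero_iff.mp h3.symm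
        rw [eval_map, eval_map]
        exact sign_at_zero hgd (hlead g hgin hgd) (hsig g hgin) ht ht' (h2 g hg hgd r)
      · rw [Finset.mem_insert, Finset.mem_singleton] at hr
        rcases hr with rfl | rfl
        · rw [hmp _ le_rfl, hmq _ le_rfl, sign_mul, sign_mul, hsf]
        · rw [hMp _ le_rfl, hMq _ le_rfl, hsf])
    (by
      intro t ht
      rw [Multiset.mem_toFinset, mem_roots hne]
      exact ht)
    ⟨m, hmR, by
      intro t ht
      by_contra hle
      push Not at hle
      rcases ht with ht | ht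
      · have h3 := hmp t hle
        rw [ht, sign_zero] at h3
        exact (mul_ne_zero hpow hlf) (sign_eq_zero_iff.mp h3.symm)
      · have h3 := hmq t hle
        rw [ht, sign_zero] at h3
        exact (mul_ne_zero hpow hlf') (sign_eq_zero_iff.mp h3.symm)⟩
    ⟨M, hMR, by
      intro t ht
      by_contra hle
      push Not at hle
      rcases ht with ht | ht
      · have h3 := hMp t hle
        rw [ht, sign_zero] at h3
        exact hlf (sign_eq_zero_iff.mp h3.symm)
      · have h3 := hMq t hle
        rw [ht, sign_zero] at h3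
        exact hlf' (sign_eq_zero_iff.mp h3.symm)⟩
  refine ⟨ψ0.trans φ1, ?_⟩
  intro g hg t
  rw [OrderIso.trans_apply]
  rcases Multiset.mem_cons.mp hg with rfl | hg
  · rw [← eval_map, ← eval_map]
    exact hψ t
  · rw [← h1 g (Multiset.mem_cons_of_mem hg) (ψ0 t)]
    by_cases hg0 : g.map φ = 0
    · rw [← eval_map, ← eval_map, hg0, eval_zero, eval_zero]
    · rw [← eval_map, ← eval_map]
      apply sign_fix (p := fun t => (g.map φ).eval t) (g.map φ).continuous
      intro z hz
      exact hψR z (hRroot g (Multiset.mem_cons_of_mem hg) hg0 z hz)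

/-- Tarski-Seidenberg in sign-equivalence form: the sign diagram of a finite family of polynomials
is controlled by finitely many signs of coefficients. -/
theorem exists_signs (F : Multiset A[X]) :
    ∃ G : Finset A, ∀ φ φ' : A →+* ℝ, SameSigns G φ φ' → SignEquiv F φ φ' := by
  classical
  refine (InvImage.wf (fun F : Multiset A[X] => F.map natDegree)
    Multiset.wellFounded_isDershowitzMannaLT).induction (C := fun F => ∃ G : Finset A,
      ∀ φ φ' : A →+* ℝ, SameSigns G φ φ' → SignEquiv F φ φ') F ?_
  intro F ih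
  by_cases hconst : ∀ f ∈ F, f.natDegree = 0
  · refine ⟨(F.map (fun f => f.coeff 0)).toFinset, ?_⟩
    intro φ φ' hG
    refine ⟨OrderIso.refl ℝ, ?_⟩
    intro f hf t
    rw [Polynomial.eq_C_of_natDegree_eq_zero (hconst f hf), eval₂_C, eval₂_C]
    exact hG _ (by simpa using ⟨f, hf, rfl⟩)
  push Not at hconst
  obtain ⟨f0, hf0, hf0d⟩ := hconst
  obtain ⟨f, hfF, hfmax⟩ := F.toFinset.exists_max_image natDegree ⟨f0, by simpa using hf0⟩
  rw [Multiset.mem_toFinset] at hfF
  have hfmax' : ∀ g ∈ F, g.natDegree ≤ f.natDegree := fun g hg =>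
    hfmax g (Multiset.mem_toFinset.mpr hg)
  have hd : 1 ≤ f.natDegree := by
    have := hfmax' f0 hf0
    omega
  -- erasing a leading term
  have herase : ∀ g ∈ F, 1 ≤ g.natDegree → ∃ G : Finset A, ∀ φ φ' : A →+* ℝ,
      SameSigns G φ φ' → SignEquiv (g.eraseLead ::ₘ F.erase g) φ φ' := by
    intro g hg hgd
    apply ih
    refine ⟨(F.erase g).map natDegree, {g.eraseLead.natDegree}, {g.natDegree}, by simp, ?_, ?_, ?_⟩
    · change Multiset.map natDegree (g.eraseLead ::ₘ F.erase g) = _
      rw [Multiset.map_cons, add_comm, Multiset.singleton_add]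
    · rw [add_comm, Multiset.singleton_add, ← Multiset.map_cons, Multiset.cons_erase hg]
    · intro y hy
      rw [Multiset.mem_singleton] at hy
      subst hy
      refine ⟨g.natDegree, by simp, ?_⟩
      have := Polynomial.eraseLead_natDegree_le g
      omega
  choose! Gerase hGerase using herase
  obtain ⟨F0, hF0⟩ := Multiset.exists_cons_of_mem hfF
  -- the smaller family
  let Y : Multiset A[X] := f.derivative ::ₘ
    ((f.derivative ::ₘ F0).filter (fun g => 1 ≤ g.natDegree)).map (prem f)
  obtain ⟨G1, hG1⟩ := ih (F0 + Y) (by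
    refine ⟨F0.map natDegree, Y.map natDegree, {f.natDegree}, by simp,
      Multiset.map_add natDegree F0 Y, ?_, ?_⟩
    · change Multiset.map natDegree F = _
      rw [hF0, Multiset.map_cons, add_comm, Multiset.singleton_add]
    · intro y hy
      obtain ⟨g, hg, rfl⟩ := Multiset.mem_map.mp hy
      refine ⟨f.natDegree, by simp, ?_⟩
      have hder : f.derivative.natDegree < f.natDegree := natDegree_derivative_lt (by omega)
      rcases Multiset.mem_cons.mp hg with rfl | hg
      · exact hder
      · obtain ⟨g', hg', rfl⟩ := Multiset.mem_map.mp hg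
        rw [Multiset.mem_filter] at hg'
        have h3 := (prem_spec f g' hg'.2).2
        rcases Multiset.mem_cons.mp hg'.1 with rfl | hg''
        · omega
        · have := hfmax' g' (by rw [hF0]; exact Multiset.mem_cons_of_mem hg'')
          omega)
  refine ⟨G1 ∪ F.toFinset.biUnion Gerase ∪ (f.derivative ::ₘ F).toFinset.image leadingCoeff, ?_⟩
  intro φ φ' hG
  by_cases hzero : ∃ g ∈ F, 1 ≤ g.natDegree ∧ φ g.leadingCoeff = 0
  · obtain ⟨g, hg, hgd, hg0⟩ := hzero
    have hsg := hG g.leadingCoeff (by
      apply Finset.mem_union_right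
      exact Finset.mem_image_of_mem _ (by simp [hg]))
    have hg0' : φ' g.leadingCoeff = 0 := by
      rw [hg0, sign_zero] at hsg
      exact sign_eq_zero_iff.mp hsg.symm
    obtain ⟨ψ, hψ⟩ := hGerase g hg hgd φ φ' (hG.mono (by
      intro x hx
      apply Finset.mem_union_left
      apply Finset.mem_union_right
      exact Finset.mem_biUnion.mpr ⟨g, by simpa using hg, hx⟩))
    refine ⟨ψ, ?_⟩
    intro p hp t
    by_cases hpg : p = g
    · subst hpg
      rw [eval₂_eraseLead hg0, eval₂_eraseLead hg0']
      exact hψ _ (Multiset.mem_cons_self _ _) t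
    · exact hψ p (Multiset.mem_cons_of_mem ((Multiset.mem_erase_of_ne hpg).mpr hp)) t
  · push Not at hzero
    obtain ⟨φ1, hφ1⟩ := hG1 φ φ' (hG.mono (by
      intro x hx
      exact Finset.mem_union_left _ (Finset.mem_union_left _ hx)))
    rw [hF0]
    apply signEquiv_step f F0 hd φ φ' _ _ φ1
    · intro g hg t
      apply hφ1
      rcases Multiset.mem_cons.mp hg with rfl | hg
      · exact Multiset.mem_add.mpr (Or.inr (Multiset.mem_cons_self _ _))
      · exact Multiset.mem_add.mpr (Or.inl hg)
    · intro g hg hgd t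
      apply hφ1
      apply Multiset.mem_add.mpr; right
      apply Multiset.mem_cons_of_mem
      exact Multiset.mem_map_of_mem _ (Multiset.mem_filter.mpr ⟨hg, hgd⟩)
    · intro g hg hgd
      rcases Multiset.mem_cons.mp hg with rfl | hg
      · exact (derivative_lead hd (hzero f hfF hd)).2
      · exact hzero g (by rw [hF0]; exact hg) hgd
    · intro g hg
      apply hG
      apply Finset.mem_union_right
      apply Finset.mem_image_of_mem
      rw [Multiset.mem_toFinset, hF0]
      exact hg

end

end Pool.Agent.Lib.MP_2d1a26_lc
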