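import Mathlib
import Pool.Agent.Lib.MP_2d1a26_lc.TarskiSeidenberg

open Set Polynomial

namespace Pool.Agent.Lib.MP_2d1a26_lc

/-- Coordinatewise integer part. -/
noncomputable def fl {γ : Type} (x : γ → ℝ) : γ → ℤ := fun i => ⌊x i⌋

/-- Coordinatewise fractional part. -/
noncomputable def fr {γ : Type} (x : γ → ℝ) : γ → ℝ := fun i => Int.fract (x i)

/-- The value of `q` is determined by a finite colouring of the integer part and finitely many
polynomial signs of the fractional part. -/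
def Det {γ τ : Type} (q : (γ → ℝ) → τ) : Prop :=
  ∃ (ι : Type) (_ : Finite ι) (c : (γ → ℤ) → ι) (G : Finset (MvPolynomial γ ℝ)),
    ∀ x y : γ → ℝ, c (fl x) = c (fl y) →
      (∀ g ∈ G, SignType.sign (MvPolynomial.eval (fr x) g) =
        SignType.sign (MvPolynomial.eval (fr y) g)) → q x = q y

lemma Det.map {γ τ τ' : Type} {q : (γ → ℝ) → τ} (h : Det q) (F : τ → τ') :
    Det (fun x => F (q x)) := by
  obtain ⟨ι, hι, c, G, h⟩ := h
  exact ⟨ι, hι, c, G, fun x y h1 h2 => congrArg F (h x y h1 h2)⟩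

lemma Det.prod {γ τ τ' : Type} {q : (γ → ℝ) → τ} {q' : (γ → ℝ) → τ'} (h : Det q) (h' : Det q') :
    Det (fun x => (q x, q' x)) := by
  classical
  obtain ⟨ι, hι, c, G, h⟩ := h
  obtain ⟨ι', hι', c', G', h'⟩ := h'
  refine ⟨ι × ι', inferInstance, fun m => (c m, c' m), G ∪ G', ?_⟩
  intro x y h1 h2
  have h3 := Prod.mk.inj h1
  have h4 := h x y h3.1 (fun g hg => h2 g (Finset.mem_union_left _ hg))
  have h5 := h' x y h3.2 (fun g hg => h2 g (Finset.mem_union_right _ hg))
  simp only [h4, h5]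

lemma Det.map₂ {γ τ τ' τ'' : Type} {q : (γ → ℝ) → τ} {q' : (γ → ℝ) → τ'} (h : Det q) (h' : Det q')
    (F : τ → τ' → τ'') : Det (fun x => F (q x) (q' x)) :=
  (h.prod h').map (fun p => F p.1 p.2)

lemma Det.rename {γ γ' τ : Type} {q : (γ → ℝ) → τ} (h : Det q) (e : γ → γ') :
    Det (fun x : γ' → ℝ => q (x ∘ e)) := by
  classical
  obtain ⟨ι, hι, c, G, h⟩ := h
  refine ⟨ι, hι, fun m => c (m ∘ e), G.image (MvPolynomial.rename e), ?_⟩
  intro x y h1 h2
  apply h
  · exact h1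
  · intro g hg
    have := h2 (MvPolynomial.rename e g) (Finset.mem_image_of_mem _ hg)
    rw [MvPolynomial.eval_rename, MvPolynomial.eval_rename] at this
    exact this

lemma Det.specialize {β γ τ : Type} {q : (β ⊕ γ → ℝ) → τ} (h : Det q) (a : β → ℝ) :
    Det (fun x : γ → ℝ => q (Sum.elim a x)) := by
  classical
  obtain ⟨ι, hι, c, G, h⟩ := h
  let T : MvPolynomial (β ⊕ γ) ℝ →ₐ[ℝ] MvPolynomial γ ℝ :=
    MvPolynomial.aeval (Sum.elim (fun b => MvPolynomial.C (Int.fract (a b))) MvPolynomial.X)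
  have hT : ∀ (x : γ → ℝ) (g : MvPolynomial (β ⊕ γ) ℝ),
      MvPolynomial.eval (fr x) (T g) = MvPolynomial.eval (fr (Sum.elim a x)) g := by
    intro x g
    have : (MvPolynomial.eval (fr x)).comp (T : MvPolynomial (β ⊕ γ) ℝ →+* MvPolynomial γ ℝ) =
        MvPolynomial.eval (fr (Sum.elim a x)) := by
      apply MvPolynomial.ringHom_ext
      · intro r
        simp [T]
      · intro i
        rcases i with b | i
        · simp [T, fr]
        · simp [T, fr]
    exact congrArg (fun F => F g) this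
  refine ⟨ι, hι, fun m => c (Sum.elim (fun b => ⌊a b⌋) m), G.image T, ?_⟩
  intro x y h1 h2
  have hfl : ∀ x : γ → ℝ, fl (Sum.elim a x) = Sum.elim (fun b => ⌊a b⌋) (fl x) := by
    intro x
    funext i
    rcases i with b | i <;> rfl
  apply h
  · rw [hfl, hfl]; exact h1
  · intro g hg
    have := h2 (T g) (Finset.mem_image_of_mem _ hg)
    rw [hT, hT] at this
    exact this

/-- Functions that are an integer function of the integer part plus a bounded polynomial of the
fractional part. -/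
def Lin {γ : Type} (h : (γ → ℝ) → ℝ) : Prop :=
  ∃ (N : (γ → ℤ) → ℤ) (p : MvPolynomial γ ℝ) (K : ℕ), ∀ w, h w = N (fl w) +
    MvPolynomial.eval (fr w) p ∧ |MvPolynomial.eval (fr w) p| ≤ K

lemma Lin.var {γ : Type} (i : γ) : Lin (fun w : γ → ℝ => w i) := by
  refine ⟨fun m => m i, MvPolynomial.X i, 1, ?_⟩
  intro w
  rw [MvPolynomial.eval_X]
  refine ⟨(Int.floor_add_fract (w i)).symm, ?_⟩
  rw [fr, abs_of_nonneg (Int.fract_nonneg _)]
  exact_mod_cast (Int.fract_lt_one (w i)).le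

lemma Lin.add {γ : Type} {h h' : (γ → ℝ) → ℝ} (hh : Lin h) (hh' : Lin h') :
    Lin (fun w => h w + h' w) := by
  obtain ⟨N, p, K, h1⟩ := hh
  obtain ⟨N', p', K', h1'⟩ := hh'
  refine ⟨fun m => N m + N' m, p + p', K + K', ?_⟩
  intro w
  beta_reduce
  rw [(h1 w).1, (h1' w).1, map_add]
  refine ⟨by push_cast; ring, ?_⟩
  push_cast
  exact (abs_add_le _ _).trans (add_le_add (h1 w).2 (h1' w).2)

lemma Lin.neg {γ : Type} {h : (γ → ℝ) → ℝ} (hh : Lin h) : Lin (fun w => - h w) := by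
  obtain ⟨N, p, K, h1⟩ := hh
  refine ⟨fun m => - N m, -p, K, ?_⟩
  intro w
  beta_reduce
  rw [(h1 w).1, map_neg, abs_neg]
  exact ⟨by push_cast; ring, (h1 w).2⟩

lemma Lin.sub {γ : Type} {h h' : (γ → ℝ) → ℝ} (hh : Lin h) (hh' : Lin h') :
    Lin (fun w => h w - h' w) := by
  have := hh.add hh'.neg
  simpa [sub_eq_add_neg] using this

lemma Lin.sub_one {γ : Type} {h : (γ → ℝ) → ℝ} (hh : Lin h) : Lin (fun w => h w - 1) := by
  obtain ⟨N, p, K, h1⟩ := hh
  refine ⟨fun m => N m - 1, p, K, ?_⟩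
  intro w
  beta_reduce
  rw [(h1 w).1]
  exact ⟨by push_cast; ring, (h1 w).2⟩

/-- Clamping an integer to `[-(K+1), K+1]`. -/
def clamp (K : ℕ) (z : ℤ) : ℤ := max (-(K + 1)) (min (K + 1) z)

lemma clamp_mem (K : ℕ) (z : ℤ) : clamp K z ∈ Set.Icc (-(K + 1) : ℤ) (K + 1) := by
  unfold clamp
  constructor
  · exact le_max_left _ _
  · apply max_le
    · omega
    · exact min_le_left _ _

lemma clamp_eq {K : ℕ} {a b : ℤ} (h : clamp K a = clamp K b) (ha : |a| ≤ K) : a = b := by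
  unfold clamp at h
  rw [abs_le] at ha
  omega

lemma clamp_gt {K : ℕ} {a b : ℤ} (h : clamp K a = clamp K b) (ha : (K : ℤ) < a) : (K : ℤ) < b := by
  unfold clamp at h
  omega

lemma clamp_lt {K : ℕ} {a b : ℤ} (h : clamp K a = clamp K b) (ha : a < -(K : ℤ)) :
    b < -(K : ℤ) := by
  unfold clamp at h
  omega

/-- The finite colour set used for clamping. -/
abbrev Col (K : ℕ) : Type := Set.Icc (-(K + 1) : ℤ) (K + 1)

instance (K : ℕ) : Finite (Col K) := (Set.finite_Icc _ _).to_subtype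

lemma Lin.det_sign {γ : Type} {h : (γ → ℝ) → ℝ} (hh : Lin h) :
    Det (fun w => SignType.sign (h w)) := by
  classical
  obtain ⟨N, p, K, h1⟩ := hh
  refine ⟨Col K, inferInstance, fun m => ⟨clamp K (N m), clamp_mem _ _⟩,
    (Finset.Icc (-(K : ℤ)) K).image (fun a : ℤ => p + MvPolynomial.C (a : ℝ)), ?_⟩
  intro x y hc hG
  have hc' : clamp K (N (fl x)) = clamp K (N (fl y)) := congrArg Subtype.val hc
  beta_reduce
  rw [(h1 x).1, (h1 y).1]
  have hx := abs_le.mp (h1 x).2
  have hy := abs_le.mp (h1 y).2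
  rcases lt_or_ge (K : ℤ) (N (fl x)) with h2 | h2
  · have h3 := clamp_gt hc' h2
    have h2' : ((K : ℤ) : ℝ) < (N (fl x) : ℝ) := by exact_mod_cast h2
    have h3' : ((K : ℤ) : ℝ) < (N (fl y) : ℝ) := by exact_mod_cast h3
    push_cast at h2' h3'
    rw [sign_pos (by linarith), sign_pos (by linarith)]
  rcases lt_or_ge (N (fl x)) (-(K : ℤ)) with h3 | h3
  · have h4 := clamp_lt hc' h3
    have h3' : (N (fl x) : ℝ) < ((-(K : ℤ) : ℤ) : ℝ) := by exact_mod_cast h3
    have h4' : (N (fl y) : ℝ) < ((-(K : ℤ) : ℤ) : ℝ) := by exact_mod_cast h4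
    push_cast at h3' h4'
    rw [sign_neg (by linarith), sign_neg (by linarith)]
  · have h4 := clamp_eq hc' (abs_le.mpr ⟨h3, h2⟩)
    have h5 := hG (p + MvPolynomial.C ((N (fl x) : ℤ) : ℝ)) (Finset.mem_image.mpr
      ⟨N (fl x), Finset.mem_Icc.mpr ⟨h3, h2⟩, rfl⟩)
    rw [RingHom.map_add, RingHom.map_add, MvPolynomial.eval_C, MvPolynomial.eval_C] at h5
    rw [← h4, add_comm, h5, add_comm]

lemma Lin.det_int {γ : Type} {h : (γ → ℝ) → ℝ} (hh : Lin h) :
    Det (fun w => ∃ k : ℤ, h w = k) := by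
  classical
  obtain ⟨N, p, K, h1⟩ := hh
  refine ⟨Unit, inferInstance, fun _ => (),
    (Finset.Icc (-(K : ℤ)) K).image (fun a : ℤ => p - MvPolynomial.C (a : ℝ)), ?_⟩
  have key : ∀ x y : γ → ℝ, (∀ g ∈ (Finset.Icc (-(K : ℤ)) K).image
      (fun a : ℤ => p - MvPolynomial.C (a : ℝ)), SignType.sign (MvPolynomial.eval (fr x) g) =
        SignType.sign (MvPolynomial.eval (fr y) g)) → (∃ k : ℤ, h x = k) → ∃ k : ℤ, h y = k := by
    intro x y hG hk
    obtain ⟨k, hk⟩ := hk
    have hx := h1 x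
    have hp : MvPolynomial.eval (fr x) p = ((k - N (fl x) : ℤ) : ℝ) := by
      push_cast
      linarith [hx.1]
    have hmem : k - N (fl x) ∈ Finset.Icc (-(K : ℤ)) K := by
      have h2 := abs_le.mp hx.2
      rw [hp] at h2
      rw [Finset.mem_Icc]
      exact ⟨by exact_mod_cast h2.1, by exact_mod_cast h2.2⟩
    have h5 := hG (p - MvPolynomial.C ((k - N (fl x) : ℤ) : ℝ)) (Finset.mem_image.mpr
      ⟨k - N (fl x), hmem, rfl⟩)
    rw [RingHom.map_sub, RingHom.map_sub, MvPolynomial.eval_C, MvPolynomial.eval_C, hp, sub_self,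
      sign_zero] at h5
    have h6 := sign_eq_zero_iff.mp h5.symm
    refine ⟨N (fl y) + (k - N (fl x)), ?_⟩
    rw [(h1 y).1]
    push_cast at h6 ⊢
    linarith
  intro x y _ hG
  apply propext
  exact ⟨key x y hG, key y x (fun g hg => (hG g hg).symm)⟩

lemma Lin.det_mul {γ : Type} {h1 h2 h3 : (γ → ℝ) → ℝ} (hh1 : Lin h1) (hh2 : Lin h2)
    (hh3 : Lin h3) :
    Det (fun w => (0 < h1 w ∧ h1 w < 1) ∧ (0 < h2 w ∧ h2 w < 1) ∧ h1 w * h2 w = h3 w) := by
  classical
  have hpos : ∀ {h : (γ → ℝ) → ℝ}, Lin h → Det (fun w => (0 < h w ∧ h w < 1)) := by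
    intro h hh
    have e1 : Det (fun w => 0 < h w) := by
      have := hh.det_sign.map (fun s => s = 1)
      convert this using 2
      rw [sign_eq_one_iff]
    have e2 : Det (fun w => h w < 1) := by
      have := hh.sub_one.det_sign.map (fun s => s = -1)
      convert this using 2
      rw [sign_eq_neg_one_iff, sub_neg]
    exact e1.map₂ e2 (fun a b => a ∧ b)
  have hA := (hpos hh1).prod (hpos hh2)
  obtain ⟨ι, hι, c, G, hA⟩ := hA
  obtain ⟨N1, p1, K1, e1⟩ := hh1
  obtain ⟨N2, p2, K2, e2⟩ := hh2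
  obtain ⟨N3, p3, K3, e3⟩ := hh3
  let G' : Finset (MvPolynomial γ ℝ) :=
    ((Finset.Icc (-(K1 : ℤ)) K1) ×ˢ (Finset.Icc (-(K2 : ℤ)) K2) ×ˢ (Finset.Icc (-(K3 : ℤ)) K3)).image
      (fun a : ℤ × ℤ × ℤ => (p1 + MvPolynomial.C (a.1 : ℝ)) * (p2 + MvPolynomial.C (a.2.1 : ℝ)) -
        (p3 + MvPolynomial.C (a.2.2 : ℝ)))
  have key : ∀ x y : γ → ℝ, c (fl x) = c (fl y) → clamp K1 (N1 (fl x)) = clamp K1 (N1 (fl y)) →
      clamp K2 (N2 (fl x)) = clamp K2 (N2 (fl y)) → clamp K3 (N3 (fl x)) = clamp K3 (N3 (fl y)) →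
      (∀ g ∈ G ∪ G', SignType.sign (MvPolynomial.eval (fr x) g) =
        SignType.sign (MvPolynomial.eval (fr y) g)) →
      ((0 < h1 x ∧ h1 x < 1) ∧ (0 < h2 x ∧ h2 x < 1) ∧ h1 x * h2 x = h3 x) →
      ((0 < h1 y ∧ h1 y < 1) ∧ (0 < h2 y ∧ h2 y < 1) ∧ h1 y * h2 y = h3 y) := by
    rintro x y hc hc1 hc2 hc3 hG ⟨⟨q1, q2⟩, ⟨q3, q4⟩, q5⟩
    have h4 := hA x y hc (fun g hg => hG g (Finset.mem_union_left _ hg))
    have h5 := Prod.mk.inj h4
    have r1 : 0 < h1 y ∧ h1 y < 1 := by rw [← h5.1]; exact ⟨q1, q2⟩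
    have r2 : 0 < h2 y ∧ h2 y < 1 := by rw [← h5.2]; exact ⟨q3, q4⟩
    refine ⟨r1, r2, ?_⟩
    have q6 : 0 < h3 x := by rw [← q5]; exact mul_pos q1 q3
    have q7 : h3 x < 1 := by
      rw [← q5]
      exact mul_lt_one_of_nonneg_of_lt_one_left q1.le q2 q4.le
    have bound : ∀ (N : (γ → ℤ) → ℤ) (p : MvPolynomial γ ℝ) (K : ℕ) (h : (γ → ℝ) → ℝ),
        (∀ w, h w = N (fl w) + MvPolynomial.eval (fr w) p ∧
          |MvPolynomial.eval (fr w) p| ≤ K) → 0 < h x → h x < 1 → |N (fl x)| ≤ K := by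
      intro N p K h e hp1 hp2
      have h6 := e x
      have h7 := abs_le.mp h6.2
      have h8 : (N (fl x) : ℝ) < ((K + 1 : ℤ) : ℝ) := by push_cast; linarith
      have h9 : ((-(K : ℤ) - 1 : ℤ) : ℝ) < (N (fl x) : ℝ) := by push_cast; linarith
      have h8' : N (fl x) < K + 1 := by exact_mod_cast h8
      have h9' : -(K : ℤ) - 1 < N (fl x) := by exact_mod_cast h9
      rw [abs_le]; omega
    have b1 := bound N1 p1 K1 h1 e1 q1 q2
    have b2 := bound N2 p2 K2 h2 e2 q3 q4
    have b3 := bound N3 p3 K3 h3 e3 q6 q7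
    have n1 := clamp_eq hc1 b1
    have n2 := clamp_eq hc2 b2
    have n3 := clamp_eq hc3 b3
    have h10 := hG _ (Finset.mem_union_right _ (Finset.mem_image.mpr
      ⟨(N1 (fl x), N2 (fl x), N3 (fl x)), by
        rw [Finset.mem_product, Finset.mem_product, Finset.mem_Icc, Finset.mem_Icc, Finset.mem_Icc]
        exact ⟨abs_le.mp b1, abs_le.mp b2, abs_le.mp b3⟩, rfl⟩))
    simp only [map_sub, map_mul, map_add, MvPolynomial.eval_C] at h10
    have h11 : (MvPolynomial.eval (fr x) p1 + (N1 (fl x) : ℝ)) *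
        (MvPolynomial.eval (fr x) p2 + (N2 (fl x) : ℝ)) -
        (MvPolynomial.eval (fr x) p3 + (N3 (fl x) : ℝ)) = 0 := by
      have := q5
      rw [(e1 x).1, (e2 x).1, (e3 x).1] at this
      linarith
    rw [h11, sign_zero] at h10
    have h12 := sign_eq_zero_iff.mp h10.symm
    rw [(e1 y).1, (e2 y).1, (e3 y).1, ← n1, ← n2, ← n3]
    linarith
  refine ⟨ι × Col K1 × Col K2 × Col K3, inferInstance,
    fun m => (c m, ⟨clamp K1 (N1 m), clamp_mem _ _⟩, ⟨clamp K2 (N2 m), clamp_mem _ _⟩,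
      ⟨clamp K3 (N3 m), clamp_mem _ _⟩), G ∪ G', ?_⟩
  intro x y hc hG
  have hc0 := Prod.mk.inj hc
  have hc1 := Prod.mk.inj hc0.2
  have hc2 := Prod.mk.inj hc1.2
  have c1 : clamp K1 (N1 (fl x)) = clamp K1 (N1 (fl y)) := congrArg Subtype.val hc1.1
  have c2 : clamp K2 (N2 (fl x)) = clamp K2 (N2 (fl y)) := congrArg Subtype.val hc2.1
  have c3 : clamp K3 (N3 (fl x)) = clamp K3 (N3 (fl y)) := congrArg Subtype.val hc2.2
  apply propext
  exact ⟨key x y hc0.1 c1 c2 c3 hG,
    key y x hc0.1.symm c1.symm c2.symm c3.symm (fun g hg => (hG g hg).symm)⟩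

lemma eval₂_optionEquivLeft {γ : Type} (x : γ → ℝ) (t : ℝ) (g : MvPolynomial (Option γ) ℝ) :
    (MvPolynomial.optionEquivLeft ℝ γ g).eval₂ (MvPolynomial.eval x) t =
      MvPolynomial.eval (fun o => Option.elim o t x) g := by
  have : (Polynomial.eval₂RingHom (MvPolynomial.eval x) t).comp
      ((MvPolynomial.optionEquivLeft ℝ γ : MvPolynomial (Option γ) ℝ ≃ₐ[ℝ]
        Polynomial (MvPolynomial γ ℝ)) : MvPolynomial (Option γ) ℝ →+*
        Polynomial (MvPolynomial γ ℝ)) = MvPolynomial.eval (fun o => Option.elim o t x) := by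
    apply MvPolynomial.ringHom_ext
    · intro r
      simp [MvPolynomial.optionEquivLeft_apply]
    · intro i
      rcases i with _ | i
      · simp [MvPolynomial.optionEquivLeft_apply]
      · simp [MvPolynomial.optionEquivLeft_apply]
  exact congrArg (fun F => F g) this

/-- Determined sets are closed under projection. -/
lemma Det.exists_option {γ : Type} {q : (Option γ → ℝ) → Prop} (h : Det q) :
    Det (fun x : γ → ℝ => ∃ t : ℝ, q (fun o => Option.elim o t x)) := by
  classical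
  obtain ⟨ι, hι, c, G, h⟩ := h
  let G0 : Finset (MvPolynomial (Option γ) ℝ) :=
    G ∪ {MvPolynomial.X none, MvPolynomial.X none - 1}
  obtain ⟨G', hG'⟩ := exists_signs (G0.val.map (MvPolynomial.optionEquivLeft ℝ γ))
  have key : ∀ x y : γ → ℝ,
      (Set.range (fun k : ℤ => c (fun o => Option.elim o k (fl x)))) =
      (Set.range (fun k : ℤ => c (fun o => Option.elim o k (fl y)))) →
      (∀ g ∈ G', SignType.sign (MvPolynomial.eval (fr x) g) =
        SignType.sign (MvPolynomial.eval (fr y) g)) →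
      (∃ t : ℝ, q (fun o => Option.elim o t x)) → (∃ t : ℝ, q (fun o => Option.elim o t y)) := by
    rintro x y hc hG ⟨u, hu⟩
    obtain ⟨ψ, hψ⟩ := hG' (MvPolynomial.eval (fr x)) (MvPolynomial.eval (fr y)) hG
    have hψ' : ∀ g ∈ G0, ∀ t : ℝ,
        SignType.sign (MvPolynomial.eval (fun o => Option.elim o t (fr x)) g) =
        SignType.sign (MvPolynomial.eval (fun o => Option.elim o (ψ t) (fr y)) g) := by
      intro g hg t
      rw [← eval₂_optionEquivLeft, ← eval₂_optionEquivLeft]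
      exact hψ _ (Multiset.mem_map_of_mem _ hg) t
    set t := Int.fract u with ht
    have ht0 : 0 ≤ t := Int.fract_nonneg u
    have ht1 : t < 1 := Int.fract_lt_one u
    have hs0 : 0 ≤ ψ t := by
      have h1 := hψ' (MvPolynomial.X none) (Finset.mem_union_right _ (by simp)) t
      simp only [MvPolynomial.eval_X, Option.elim_none] at h1
      rcases lt_or_eq_of_le ht0 with h2 | h2
      · rw [sign_pos h2] at h1
        exact (sign_eq_one_iff.mp h1.symm).le
      · rw [← h2, sign_zero] at h1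
        rw [← h2]
        exact (sign_eq_zero_iff.mp h1.symm).ge
    have hs1 : ψ t < 1 := by
      have h1 := hψ' (MvPolynomial.X none - 1) (Finset.mem_union_right _ (by simp)) t
      simp only [MvPolynomial.eval_X, Option.elim_none, map_sub, map_one] at h1
      rw [sign_neg (by linarith)] at h1
      have := sign_eq_neg_one_iff.mp h1.symm
      linarith
    have hcx : c (fun o => Option.elim o ⌊u⌋ (fl x)) ∈
        Set.range (fun k : ℤ => c (fun o => Option.elim o k (fl y))) := by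
      rw [← hc]; exact ⟨⌊u⌋, rfl⟩
    obtain ⟨k, hk⟩ := hcx
    refine ⟨k + ψ t, ?_⟩
    have hflx : fl (fun o : Option γ => Option.elim o u x) = fun o => Option.elim o ⌊u⌋ (fl x) := by
      funext o; rcases o with _ | i <;> rfl
    have hfly : fl (fun o : Option γ => Option.elim o (k + ψ t) y) =
        fun o => Option.elim o k (fl y) := by
      funext o
      rcases o with _ | i
      · change ⌊(k : ℝ) + ψ t⌋ = k
        rw [Int.floor_intCast_add, Int.floor_eq_zero_iff.mpr ⟨hs0, hs1⟩, add_zero]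
      · rfl
    have hfrx : fr (fun o : Option γ => Option.elim o u x) = fun o => Option.elim o t (fr x) := by
      funext o; rcases o with _ | i <;> rfl
    have hfry : fr (fun o : Option γ => Option.elim o (k + ψ t) y) =
        fun o => Option.elim o (ψ t) (fr y) := by
      funext o
      rcases o with _ | i
      · change Int.fract ((k : ℝ) + ψ t) = ψ t
        rw [Int.fract_intCast_add, Int.fract_eq_self.mpr ⟨hs0, hs1⟩]
      · rfl
    have := h (fun o : Option γ => Option.elim o u x) (fun o : Option γ => Option.elim o (k + ψ t) y)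
      (by rw [hflx, hfly]; exact hk.symm) (by
        intro g hg
        rw [hfrx, hfry]
        exact hψ' g (Finset.mem_union_left _ hg) t)
    rw [← this]
    exact hu
  refine ⟨Set ι, inferInstance,
    fun m => Set.range (fun k : ℤ => c (fun o => Option.elim o k m)), G', ?_⟩
  intro x y hc hG
  apply propext
  exact ⟨key x y hc hG, key y x hc.symm (fun g hg => (hG g hg).symm)⟩

end Pool.Agent.Lib.MP_2d1a26_lc
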